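import Pool.Agent.LibBE36D.HX
import Pool.Agent.LibBE66.F3
import Pool.Agent.LibBE36T.Defs

/-! BE36, part D': decorrelation by a shift of the contour in one coefficient of the metric:
definitions (architect helper66). -/

open MeasureTheory Set Filter Topology Metric
open scoped ContDiff

namespace BD36

open BGS BR BE B35 BE66 B36

variable {Γ : Type} [Group Γ] [MulAction Γ Pl] {D : Set Pl} {ι : Type}

/-- The setting: `s i (p, ·)` is the exponent of the metric; the coefficient `t ∈ [0, 1]` of the bump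
function of the cell `pc i` of the mesh `1 / (nn i + 1)` corresponds to the parameter `p = v i * t`, its
amplitude is `w i`; `s0 i (0, ·)` is the exponent of the base metric. -/
structure DG (Γ : Type) [Group Γ] [MulAction Γ Pl] (D : Set Pl) (m : Pl → Co) (a b b0 : ℝ)
    (L0 : ℕ) (s s0 : ι → ℝ × Pl → ℝ) (nn : ι → ℕ) (pc : ι → ℤ × ℤ) (w v e : ι → ℝ) : Prop where
  cf : CF Γ D m a b s
  cf0 : CF Γ D m a b0 s0
  v_mem : ∀ i, 0 < v i ∧ v i ≤ 1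
  near : ∀ (i : ι), ∀ t ∈ Icc (0 : ℝ) 1, ∀ z, |s i (v i * t, z) - s0 i (0, z)| ≤ e i
  e_mem : ∀ i, 0 ≤ e i ∧ e i ≤ 1
  w_mem : ∀ i, 0 < w i ∧ w i ≤ 1
  cell : ∀ i, pc i ∈ grid L0 (nn i + 1)
  der : ∃ C : ℝ, ∀ (i : ι), ∀ t ∈ Icc (0 : ℝ) 1, ∃ c : Pl → ℝ, Continuous c ∧
    (∀ z, |c z| ≤ C / ((nn i : ℝ) + 1) ^ 2) ∧
    ∀ z, HasDerivAt (fun r => s i (v i * r, z))
      (w i * (per Γ (BGM.bmq (nn i + 1) (pc i)) z - c z)) t

/-- The constant of the holomorphic extensions. -/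
noncomputable def hM (A N : ℕ) (Q d : ℝ) : ℝ := (A * ((N + 1) * Q * (2 + d))) ^ A

/-- The holomorphic extensions in the parameter of the displacement, of the coefficients of the
parametrix and of the exponent; `1 / Q i` is the scale of the metric. -/
def PX (Γ : Type) [Group Γ] [MulAction Γ Pl] (m : Pl → Co) (s : ι → ℝ × Pl → ℝ) (Q : ι → ℝ) :
    Prop :=
  ∃ A : ℕ, 1 ≤ A ∧ ∀ (i : ι) (x : Pl) (g : Γ) (N : ℕ) (M : ℝ), g ≠ 1 →
    M = hM A N (Q i) (BR.ds (mm m (s i) 0) x (g • x)) →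
    HX M⁻¹ M (fun p => ((BR.ds (mm m (s i) p) x (g • x) : ℝ) : ℂ)) ∧
    (∀ j ≤ N, HX M⁻¹ (M ^ (j + 1)) (fun p =>
      ((UU (Gx (mm m (s i) p) x) j (Vx (mm m (s i) p) x (g • x)) : ℝ) : ℂ))) ∧
    HX M⁻¹ M (fun p => ((s i (p, x) : ℝ) : ℂ))

/-- The integrand without the cut-off, as a function of the point `p = (s, y)`. -/
noncomputable def GG {Γ : Type} [Group Γ] [MulAction Γ Pl] (m0 m1 : Pl → Co) (N : ℕ)
    (b : ℝ → ℂ) (τ : ℝ) (g : Γ) (x0 v0 : Pl) (p : Pl) : ℂ :=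
  KE m1 N b τ g (Fm m0 x0 v0 p) *
    ((√(dt (m1 (Fm m0 x0 v0 p))) * |(fderiv ℝ (Fm m0 x0 v0) p).det| : ℝ) : ℂ)

/-- The contribution of the class of `g` for the metric `m1`, localised by `θ` to the distance `2 δ` of
the axis `(x0, v0)` of the metric `m0`. -/
noncomputable def ZT {Γ : Type} [Group Γ] [MulAction Γ Pl] (m0 m1 : Pl → Co) (θ : ℝ → ℝ) (δ : ℝ)
    (N : ℕ) (b : ℝ → ℂ) (τ : ℝ) (g : Γ) (x0 v0 : Pl) (l0 : ℝ) : ℂ :=
  ∫ s in (0 : ℝ)..l0, ∫ y in (-(2 * δ))..(2 * δ), ((θ y : ℝ) : ℂ) * GG m0 m1 N b τ g x0 v0 (s, y)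

/-- The polynomial size. -/
noncomputable def vv (C N : ℕ) (Q H ρ : ℝ) : ℝ := (C * ((N + 1) * Q * H * (1 + ρ))) ^ C

end BD36
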