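import Pool.Agent.LibBE36D.Defs
import Pool.Agent.LibBE36C.AL4

/-! The symbol `al j a τ r` at complex `r` (from LibBE36C/AL4 of helper99). -/

open MeasureTheory Set Filter Topology Metric
open scoped ContDiff

namespace BD36

open BGS BR BE B35 BE66 B36

private theorem AL_min {a : ℂ → ℂ} {ρ M H h : ℝ} (ha : EA a ρ M H h) (hM : 0 ≤ M) (hH : 1 ≤ H)
    (hh : 1 ≤ h) : EA a ρ M H (min h H) := by
  refine ⟨ha.diff, ha.conj, fun z => (ha.bound z).trans ?_⟩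
  refine mul_le_mul_of_nonneg_left (Real.exp_le_exp.2 ?_) hM
  have h1 : 0 ≤ max 0 (|z.re| - ρ) := le_max_left _ _
  have h2 : 0 ≤ min h H := le_min (by linarith) (by linarith)
  have h3 : min h H * max 0 (|z.re| - ρ) ≤ h * max 0 (|z.re| - ρ) :=
    mul_le_mul_of_nonneg_right (min_le_left _ _) h1
  have h4 := pow_le_pow_left₀ (mul_nonneg h2 h1) h3 2
  linarith

theorem al_ext {a : ℂ → ℂ} {ρ M H h r0 τ : ℝ} (ha : EA a ρ M H h) (hρ : 0 ≤ ρ) (hM : 0 ≤ M)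
    (hH : 1 ≤ H) (hh : 1 ≤ h) (hr0 : 0 < r0) (_hr1 : r0 ≤ 1) (hτ : 1 ≤ τ) (j : ℕ) :
    ∃ g : ℂ → ℂ, DifferentiableOn ℂ g {z | r0 / 2 < z.re ∧ |z.im| < 1 / (4 * H)} ∧
      (∀ r : ℝ, r0 / 2 < r → g r = B35.al j (rst a) τ r) ∧
      ∀ z : ℂ, r0 / 2 < z.re → |z.im| < 1 / (4 * H) →
        ‖g z‖ ≤ 40 * H * τ * M / √r0 * (64 * (j + 1) * (1 + ρ + ‖z‖)) ^ (2 * j + 1) := by
  obtain ⟨g, h1, h2, h3⟩ := BE36C.al_hol (r0 := r0) (AL_min ha hM hH hh) hρ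
    (le_min hh hH) (min_le_right _ _) hr0 hτ j
  refine ⟨g, h1.mono fun z hz => ?_, fun r hr => h2 r (by linarith), fun z hz hz' =>
    h3 z hz.le hz'.le⟩
  have : 0 < z.re := by linarith [hz.1]
  exact this

theorem al_cont {a : ℂ → ℂ} {ρ M H h τ : ℝ} (ha : EA a ρ M H h) (hρ : 0 ≤ ρ) (hM : 0 ≤ M)
    (hH : 1 ≤ H) (hh : 1 ≤ h) (hτ : 1 ≤ τ) (j : ℕ) :
    ContinuousOn (B35.al j (rst a) τ) (Ioi 0) := by
  obtain ⟨g, h1, h2, -⟩ := BE36C.al_hol (r0 := 1) (AL_min ha hM hH hh) hρ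
    (le_min hh hH) (min_le_right _ _) one_pos hτ j
  have h4 : ContinuousOn (fun r : ℝ => g r) (Ioi 0) := by
    refine h1.continuousOn.comp Complex.continuous_ofReal.continuousOn fun r hr => ?_
    have hr' : 0 < r := hr
    show 0 < ((r : ℂ)).re
    rwa [Complex.ofReal_re]
  exact h4.congr fun r hr => (h2 r hr).symm

end BD36
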