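import Mathlib

/-! ROW D1 : shift of the contour for the density `(4 t (1 - t)) ^ M`. MEDIUM, ONLY MATHLIB.
PLAN. `F z = (4 z (1 - z)) ^ M * G z * exp (I Φ z)` is holomorphic on `ball 0 2`, which contains the closed rectangle
`[0, 1] × [0, 1 / 24]`: `Complex.integral_boundary_rect_eq_zero_of_differentiableOn` (with `z = 0`, `w = 1 + I / 24`), so the integral
over `[0, 1]` is the integral over the upper side plus (up to sign and factors `I`) the integrals over the vertical sides. Upper side,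
`z = x + i / 24`: `|z|^2 |1 - z|^2 = (x^2 + h^2) ((1 - x)^2 + h^2) = (x (1 - x))^2 + h^2 (x^2 + (1 - x)^2) + h^4` with `h = 1 / 24`, and
`16 * this ≤ (1 + 1 / 144) ^ 2` (`x (1 - x) ≤ 1 / 4`, write `q = x (1 - x)`, `x^2 + (1-x)^2 = 1 - 2 q`, the quadratic polynomial in `q` is convex, check
`q = 0`, `q = 1/4`), so `‖4 z (1 - z)‖ ^ M ≤ (1 + 1 / 144) ^ M ≤ exp (M / 144)`; `‖exp (I Φ)‖ = exp (-Im Φ) ≤ exp (-c / 24)`.
Vertical sides, `z = i y` or `1 + i y`, `0 ≤ y ≤ 1 / 24`: `‖4 z (1 - z)‖ = 4 y √(1 + y^2) ≤ 1 / 5`, `‖exp (I Φ)‖ ≤ 1`, length `1 / 24`. -/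

open MeasureTheory Set Filter Topology Metric

namespace BD36

private theorem D1_in_ball {x y : ℝ} (hx : x ∈ Icc (0 : ℝ) 1) (hy : y ∈ Icc (0 : ℝ) (1 / 24)) :
    (x : ℂ) + (y : ℂ) * Complex.I ∈ ball (0 : ℂ) 2 := by
  rw [mem_ball_zero_iff]
  have h1 : ‖(x : ℂ) + (y : ℂ) * Complex.I‖ ≤ |x| + |y| := by
    refine (norm_add_le _ _).trans ?_
    rw [norm_mul, Complex.norm_I, mul_one, Complex.norm_real, Complex.norm_real,
      Real.norm_eq_abs, Real.norm_eq_abs]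
  rw [abs_of_nonneg hx.1, abs_of_nonneg hy.1] at h1
  linarith [hx.2, hy.2]

private theorem D1_normSq (x y : ℝ) :
    Complex.normSq (4 * ((x : ℂ) + (y : ℂ) * Complex.I) * (1 - ((x : ℂ) + (y : ℂ) * Complex.I))) =
      16 * ((x ^ 2 + y ^ 2) * ((1 - x) ^ 2 + y ^ 2)) := by
  rw [Complex.normSq_mul, Complex.normSq_mul, Complex.normSq_add_mul_I]
  have h1 : (1 : ℂ) - ((x : ℂ) + (y : ℂ) * Complex.I) =
      ((1 - x : ℝ) : ℂ) + ((-y : ℝ) : ℂ) * Complex.I := by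
    push_cast; ring
  have h2 : Complex.normSq 4 = 16 := by
    rw [Complex.normSq_ofNat]; norm_num
  rw [h1, Complex.normSq_add_mul_I, h2]
  ring

private theorem D1_norm_le {x y b : ℝ} (hb : 0 ≤ b)
    (h : 16 * ((x ^ 2 + y ^ 2) * ((1 - x) ^ 2 + y ^ 2)) ≤ b ^ 2) :
    ‖4 * ((x : ℂ) + (y : ℂ) * Complex.I) * (1 - ((x : ℂ) + (y : ℂ) * Complex.I))‖ ≤ b := by
  refine abs_le_of_sq_le_sq' ?_ hb |>.2
  rw [Complex.sq_norm, D1_normSq]
  exact h

private theorem D1_bd {M : ℕ} {G Φ : ℂ → ℂ} {B c x y b : ℝ}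
    (hB : ∀ z ∈ ball (0 : ℂ) 2, ‖G z‖ ≤ B)
    (hI : ∀ x ∈ Icc (0 : ℝ) 1, ∀ y ∈ Icc (0 : ℝ) (1 / 24),
      c * y ≤ (Φ ((x : ℂ) + (y : ℂ) * Complex.I)).im)
    (hx : x ∈ Icc (0 : ℝ) 1) (hy : y ∈ Icc (0 : ℝ) (1 / 24)) (hb : 0 ≤ b)
    (h : 16 * ((x ^ 2 + y ^ 2) * ((1 - x) ^ 2 + y ^ 2)) ≤ b ^ 2) :
    ‖(4 * ((x : ℂ) + (y : ℂ) * Complex.I) * (1 - ((x : ℂ) + (y : ℂ) * Complex.I))) ^ M *
      (G ((x : ℂ) + (y : ℂ) * Complex.I) *
        Complex.exp (Complex.I * Φ ((x : ℂ) + (y : ℂ) * Complex.I)))‖ ≤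
      b ^ M * (B * Real.exp (-(c * y))) := by
  rw [norm_mul, norm_pow, norm_mul (G _), Complex.norm_exp]
  have h1 := D1_norm_le hb h
  have h2 := hB _ (D1_in_ball hx hy)
  have h3 : (Complex.I * Φ ((x : ℂ) + (y : ℂ) * Complex.I)).re ≤ -(c * y) := by
    rw [Complex.I_mul_re]
    linarith [hI x hx y hy]
  have h4 := Real.exp_le_exp.2 h3
  have hB0 : 0 ≤ B := (norm_nonneg _).trans h2
  refine mul_le_mul (pow_le_pow_left₀ (norm_nonneg _) h1 M) ?_ (by positivity) (pow_nonneg hb M)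
  exact mul_le_mul h2 h4 (Real.exp_pos _).le hB0

theorem contour (M : ℕ) {G Φ : ℂ → ℂ} {B c : ℝ} (hG : DifferentiableOn ℂ G (ball 0 2))
    (hΦ : DifferentiableOn ℂ Φ (ball 0 2)) (hB : ∀ z ∈ ball (0 : ℂ) 2, ‖G z‖ ≤ B) (hc : 0 ≤ c)
    (hI : ∀ x ∈ Icc (0 : ℝ) 1, ∀ y ∈ Icc (0 : ℝ) (1 / 24),
      c * y ≤ (Φ ((x : ℂ) + (y : ℂ) * Complex.I)).im) :
    ‖∫ t in (0 : ℝ)..1, (((4 * t * (1 - t)) ^ M : ℝ) : ℂ) * (G t * Complex.exp (Complex.I * Φ t))‖ ≤
      B * (Real.exp (M / 144 - c / 24) + (1 / 5) ^ M) := by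
  have hB0 : 0 ≤ B := (norm_nonneg _).trans (hB 0 (by simp))
  set F : ℂ → ℂ := fun z => (4 * z * (1 - z)) ^ M * (G z * Complex.exp (Complex.I * Φ z)) with hF
  have hFd : DifferentiableOn ℂ F (ball 0 2) := by
    refine DifferentiableOn.mul ?_ (hG.mul (hΦ.const_mul Complex.I).cexp)
    exact (Differentiable.differentiableOn (by fun_prop))
  have hrect := Complex.integral_boundary_rect_eq_zero_of_differentiableOn F 0
    (1 + (1 / 24 : ℝ) * Complex.I) (hFd.mono ?_)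
  swap
  · intro z hz
    rw [Complex.mem_reProdIm] at hz
    have h1 : (1 + ((1 / 24 : ℝ) : ℂ) * Complex.I).re = 1 := by simp
    have h2 : (1 + ((1 / 24 : ℝ) : ℂ) * Complex.I).im = 1 / 24 := by simp
    rw [h1, h2, Complex.zero_re, Complex.zero_im, uIcc_of_le (by norm_num),
      uIcc_of_le (by norm_num)] at hz
    have h3 := D1_in_ball hz.1 hz.2
    rwa [Complex.re_add_im] at h3
  have h1 : (1 + ((1 / 24 : ℝ) : ℂ) * Complex.I).re = 1 := by simp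
  have h2 : (1 + ((1 / 24 : ℝ) : ℂ) * Complex.I).im = 1 / 24 := by simp
  rw [h1, h2, Complex.zero_re, Complex.zero_im] at hrect
  set A0 : ℂ := ∫ x in (0 : ℝ)..1, F (x + (0 : ℝ) * Complex.I) with hA0
  set A1 : ℂ := ∫ x in (0 : ℝ)..1, F (x + (1 / 24 : ℝ) * Complex.I) with hA1
  set V1 : ℂ := ∫ y in (0 : ℝ)..(1 / 24), F ((1 : ℝ) + y * Complex.I) with hV1
  set V0 : ℂ := ∫ y in (0 : ℝ)..(1 / 24), F ((0 : ℝ) + y * Complex.I) with hV0
  have e0 : (∫ t in (0 : ℝ)..1, (((4 * t * (1 - t)) ^ M : ℝ) : ℂ) *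
      (G t * Complex.exp (Complex.I * Φ t))) = A0 := by
    rw [hA0]
    refine intervalIntegral.integral_congr fun t _ => ?_
    simp only [hF, Complex.ofReal_zero, zero_mul, add_zero]
    push_cast
    ring
  have e1 : A0 = A1 - Complex.I • V1 + Complex.I • V0 := by
    linear_combination hrect
  have hy24 : (1 / 24 : ℝ) ∈ Icc (0 : ℝ) (1 / 24) := ⟨by norm_num, le_rfl⟩
  have b1 : ‖A1‖ ≤ B * Real.exp (M / 144 - c / 24) := by
    have h3 : ∀ x ∈ uIoc (0 : ℝ) 1, ‖F (x + (1 / 24 : ℝ) * Complex.I)‖ ≤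
        B * Real.exp (M / 144 - c / 24) := by
      intro x hx
      rw [uIoc_of_le zero_le_one] at hx
      have hx' : x ∈ Icc (0 : ℝ) 1 := ⟨hx.1.le, hx.2⟩
      have h4 := D1_bd (M := M) (b := 1 + 1 / 144) hB hI hx' hy24 (by norm_num) (by
        have hq0 : 0 ≤ x * (1 - x) := mul_nonneg hx'.1 (by linarith [hx'.2])
        have hq1 : x * (1 - x) ≤ 1 / 4 := by nlinarith [sq_nonneg (x - 1 / 2)]
        have e : 16 * ((x ^ 2 + (1 / 24 : ℝ) ^ 2) * ((1 - x) ^ 2 + (1 / 24 : ℝ) ^ 2)) =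
            16 * ((x * (1 - x)) ^ 2 + (1 / 24 : ℝ) ^ 2 * (1 - 2 * (x * (1 - x))) +
              (1 / 24 : ℝ) ^ 4) := by ring
        rw [e]
        generalize x * (1 - x) = q at *
        nlinarith [mul_nonneg hq0 (by linarith : (0 : ℝ) ≤ 1 / 4 - q)])
      refine h4.trans ?_
      have h5 : (1 + 1 / 144 : ℝ) ^ M ≤ Real.exp (M / 144) := by
        have h6 : (1 + 1 / 144 : ℝ) ≤ Real.exp (1 / 144) := by
          linarith [Real.add_one_le_exp (1 / 144 : ℝ)]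
        calc (1 + 1 / 144 : ℝ) ^ M ≤ Real.exp (1 / 144) ^ M :=
              pow_le_pow_left₀ (by norm_num) h6 M
          _ = Real.exp (M / 144) := by
              rw [← Real.exp_nat_mul]
              congr 1
              ring
      calc (1 + 1 / 144 : ℝ) ^ M * (B * Real.exp (-(c * (1 / 24))))
          ≤ Real.exp (M / 144) * (B * Real.exp (-(c * (1 / 24)))) :=
            mul_le_mul_of_nonneg_right h5 (by positivity)
        _ = B * (Real.exp (M / 144) * Real.exp (-(c * (1 / 24)))) := by ring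
        _ = B * Real.exp (M / 144 - c / 24) := by
            rw [← Real.exp_add]
            congr 2
            ring
    have h4 := intervalIntegral.norm_integral_le_of_norm_le_const h3
    rw [sub_zero, abs_one, mul_one] at h4
    exact h4
  have bv : ∀ x ∈ Icc (0 : ℝ) 1, x * (1 - x) = 0 →
      ‖∫ y in (0 : ℝ)..(1 / 24), F ((x : ℝ) + y * Complex.I)‖ ≤ B * (1 / 5) ^ M / 24 := by
    intro x hx hq
    have h3 : ∀ y ∈ uIoc (0 : ℝ) (1 / 24), ‖F (x + y * Complex.I)‖ ≤ B * (1 / 5) ^ M := by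
      intro y hy
      rw [uIoc_of_le (by norm_num)] at hy
      have hy' : y ∈ Icc (0 : ℝ) (1 / 24) := ⟨hy.1.le, hy.2⟩
      have h4 := D1_bd (M := M) (b := 1 / 5) hB hI hx hy' (by norm_num) (by
        have e : 16 * ((x ^ 2 + y ^ 2) * ((1 - x) ^ 2 + y ^ 2)) =
            16 * ((x * (1 - x)) ^ 2 + y ^ 2 * (1 - 2 * (x * (1 - x))) + y ^ 4) := by ring
        rw [e, hq]
        have h5 : y ^ 2 ≤ (1 / 24) ^ 2 := pow_le_pow_left₀ hy'.1 hy'.2 2
        nlinarith [sq_nonneg y, mul_nonneg (sq_nonneg y) (sub_nonneg.2 h5)])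
      refine h4.trans ?_
      have h5 : Real.exp (-(c * y)) ≤ 1 := by
        rw [Real.exp_le_one_iff]
        have := mul_nonneg hc hy'.1
        linarith
      have h6 : B * Real.exp (-(c * y)) ≤ B := mul_le_of_le_one_right hB0 h5
      calc (1 / 5 : ℝ) ^ M * (B * Real.exp (-(c * y))) ≤ (1 / 5 : ℝ) ^ M * B :=
            mul_le_mul_of_nonneg_left h6 (by positivity)
        _ = B * (1 / 5) ^ M := mul_comm _ _
    have h4 := intervalIntegral.norm_integral_le_of_norm_le_const h3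
    rw [sub_zero, abs_of_nonneg (by norm_num)] at h4
    refine h4.trans (le_of_eq ?_)
    ring
  have b2 : ‖V1‖ ≤ B * (1 / 5) ^ M / 24 := bv 1 (by simp) (by norm_num)
  have b3 : ‖V0‖ ≤ B * (1 / 5) ^ M / 24 := bv 0 (by simp) (by norm_num)
  rw [e0, e1]
  have b4 : ‖A1 - Complex.I • V1 + Complex.I • V0‖ ≤ ‖A1‖ + ‖V1‖ + ‖V0‖ := by
    refine (norm_add_le _ _).trans ?_
    refine add_le_add ((norm_sub_le _ _).trans ?_) ?_
    · rw [norm_smul, Complex.norm_I, one_mul]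
    · rw [norm_smul, Complex.norm_I, one_mul]
  have h5 : 0 ≤ B * (1 / 5 : ℝ) ^ M := by positivity
  rw [mul_add]
  linarith

end BD36
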