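import Pool.Agent.LibBE36D.AL
import Pool.Agent.LibBE36D.D5
import Pool.Agent.LibBE66.F4
import Pool.Agent.LibBE66.N3

/-! ROW D9 : joint continuity of the integrand, and Fubini. MEDIUM. Templates: LibBE66/F4 `FF_cont`, LibBE66/N3 `fub`, `fub_cont`. Cites AL `al_cont`, D5 `cf_scale`.
PLAN. `GG_cont`: the proof of `FF_cont` for the scaled family (`cf_scale`, `mm m (st i) t = mm m (s i) (v i * t)`), without the factor `cut`, with `al_cont` in place of `al_bd`.
`fubI`, `fubI_cont`: the proofs of `fub`, `fub_cont` with the inner integral over `[-2δ, 2δ]` from the beginning (drop `h0`, `N3_in`). `ZT_cont`: `fubI_cont` with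
`F j t q = cj (ep j) (θ q.2 * GG ..)` and `cj` of an interval integral (the corresponding step in LibBE66/M1). -/

open MeasureTheory Set Filter Topology Metric
open scoped ContDiff

namespace BD36

open BGS BR BE B35 BE66 B36

variable {Γ : Type} [Group Γ] [MulAction Γ Pl] {D : Set Pl} {ι : Type} {m : Pl → Co}
  {a b b0 : ℝ} {L0 : ℕ} {s s0 : ι → ℝ × Pl → ℝ} {nn : ι → ℕ} {pc : ι → ℤ × ℤ} {w v e : ι → ℝ}

private theorem D9_pt {st : ι → ℝ × Pl → ℝ} (hc : CF Γ D m a b st) (hc0 : CF Γ D m a b0 s0)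
    (i : ι) (x0 v0 : Pl) : Continuous fun q : ℝ × Pl => Fm (mm m (s0 i) 0) x0 v0 q.2 :=
  (Fm_smooth hc.hX (hm_mm hc0 i 0) x0 v0).continuous.comp continuous_snd

private theorem D9_tr {st : ι → ℝ × Pl → ℝ} (hc : CF Γ D m a b st) (hc0 : CF Γ D m a b0 s0)
    (i : ι) (g : Γ) (x0 v0 : Pl) : Continuous fun q : ℝ × Pl =>
      ((q.1, Fm (mm m (s0 i) 0) x0 v0 q.2, g • Fm (mm m (s0 i) 0) x0 v0 q.2) : ℝ × Pl × Pl) :=
  continuous_fst.prodMk ((D9_pt hc hc0 i x0 v0).prodMk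
    ((hc.hX.smooth g).continuous.comp (D9_pt hc hc0 i x0 v0)))

private theorem D9_ds {st : ι → ℝ × Pl → ℝ} (hc : CF Γ D m a b st) (hc0 : CF Γ D m a b0 s0)
    (i : ι) (g : Γ) (x0 v0 : Pl) :
    Continuous fun q : ℝ × Pl => BR.ds (mm m (st i) q.1) (Fm (mm m (s0 i) 0) x0 v0 q.2)
      (g • Fm (mm m (s0 i) 0) x0 v0 q.2) := by
  have h1 : Continuous fun q : ℝ × Pl =>
      JV m (st i) (q.1, Fm (mm m (s0 i) 0) x0 v0 q.2, g • Fm (mm m (s0 i) 0) x0 v0 q.2) :=
    (JV_smooth hc i).continuous.comp (D9_tr hc hc0 i g x0 v0)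
  have h2 : Continuous fun v : Pl => BR.eu v := by
    unfold BR.eu
    fun_prop
  exact h2.comp h1

private theorem D9_gen {st : ι → ℝ × Pl → ℝ} (hc : CF Γ D m a b st) (hc0 : CF Γ D m a b0 s0)
    (i : ι) {g : Γ} {x0 v0 : Pl} {l : ℝ}
    (hA : Axis (mm m (s0 i) 0) g x0 v0 l) (N : ℕ) {β : ℂ → ℂ} {ρ M H η τ : ℝ} (hρ : 0 ≤ ρ)
    (hM : 0 ≤ M) (hH : 1 ≤ H) (hη : 1 ≤ η) (hβ : EA β ρ M H η) (hτ : 1 ≤ τ) :
    Continuous fun q : ℝ × Pl =>
      GG (mm m (s0 i) 0) (mm m (st i) q.1) N (rst β) τ g x0 v0 q.2 := by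
  have hds := D9_ds hc hc0 i g x0 v0
  have hpos : ∀ q : ℝ × Pl, 0 < BR.ds (mm m (st i) q.1) (Fm (mm m (s0 i) 0) x0 v0 q.2)
      (g • Fm (mm m (s0 i) 0) x0 v0 q.2) := by
    intro q
    have hne := (Axis_ne hc.hX hc.hO (hm_mm hc0 i 0) hA).2
      (Fm (mm m (s0 i) 0) x0 v0 q.2)
    exact (ds_smooth hc i (Ne.symm hne)).2 q.1
  have hexp : Continuous fun q : ℝ × Pl => Complex.exp (-(Complex.I * τ *
      BR.ds (mm m (st i) q.1) (Fm (mm m (s0 i) 0) x0 v0 q.2)
        (g • Fm (mm m (s0 i) 0) x0 v0 q.2))) := by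
    refine Complex.continuous_exp.comp ?_
    exact (continuous_const.mul (Complex.continuous_ofReal.comp hds)).neg
  have hKC : Continuous fun q : ℝ × Pl => B35.KC (mm m (st i) q.1) N (rst β) τ
      (Fm (mm m (s0 i) 0) x0 v0 q.2) (g • Fm (mm m (s0 i) 0) x0 v0 q.2) := by
    unfold B35.KC
    refine continuous_finsetSum _ fun j _ => ?_
    refine Continuous.mul ?_ ?_
    · exact Complex.continuous_ofReal.comp
        ((UU_smooth hc i j).continuous.comp (D9_tr hc hc0 i g x0 v0))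
    · have h3 := al_cont hβ hρ hM hH hη hτ j
      exact h3.comp_continuous hds fun q => hpos q
  have hdt : Continuous fun q : ℝ × Pl =>
      dt (mm m (st i) q.1 (Fm (mm m (s0 i) 0) x0 v0 q.2)) := by
    have h4 : Continuous fun q : ℝ × Pl =>
        mm m (st i) q.1 (Fm (mm m (s0 i) 0) x0 v0 q.2) := by
      unfold mm
      refine Continuous.smul (Real.continuous_exp.comp ((hc.smooth i).continuous.comp
        (continuous_fst.prodMk (D9_pt hc hc0 i x0 v0)))) ?_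
      exact hc.hm.smooth.continuous.comp (D9_pt hc hc0 i x0 v0)
    unfold dt
    exact (h4.fst.mul h4.snd.snd).sub (h4.snd.fst.pow 2)
  have hdet : Continuous fun q : ℝ × Pl => (fderiv ℝ (Fm (mm m (s0 i) 0) x0 v0) q.2).det := by
    have h5 := (Fm_smooth hc.hX (hm_mm hc0 i 0) x0 v0).continuous_fderiv (by simp)
    exact ContinuousLinearMap.continuous_det.comp (h5.comp continuous_snd)
  unfold GG B35.KE
  exact (hexp.mul hKC).mul (Complex.continuous_ofReal.comp (hdt.sqrt.mul hdet.abs))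

theorem GG_cont (h : DG Γ D m a b b0 L0 s s0 nn pc w v e) (i : ι) {g : Γ} {x0 v0 : Pl} {l : ℝ}
    (hA : Axis (mm m (s0 i) 0) g x0 v0 l) (N : ℕ) {β : ℂ → ℂ} {ρ M H η τ : ℝ} (hρ : 0 ≤ ρ)
    (hM : 0 ≤ M) (hH : 1 ≤ H) (hη : 1 ≤ η) (hβ : EA β ρ M H η) (hτ : 1 ≤ τ) :
    Continuous fun q : ℝ × Pl =>
      GG (mm m (s0 i) 0) (mm m (s i) (v i * q.1)) N (rst β) τ g x0 v0 q.2 := by
  exact D9_gen (st := fun i (q : ℝ × Pl) => s i (v i * q.1, q.2)) (cf_scale h.cf h.v_mem) h.cf0 i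
    hA N hρ hM hH hη hβ hτ

theorem fubI_cont {J : Type} [Fintype J] {F : J → ℝ → Pl → ℂ}
    (hF : ∀ j, Continuous fun q : ℝ × Pl => F j q.1 q.2) (δ : ℝ) (l : J → ℝ) :
    Continuous fun t => ∏ j, ∫ s in (0 : ℝ)..l j, ∫ y in (-(2 * δ))..(2 * δ), F j t (s, y) := by
  refine continuous_finsetProd _ fun j _ => ?_
  refine intervalIntegral.continuous_parametric_intervalIntegral_of_continuous'
    (f := fun t s : ℝ => ∫ y in (-(2 * δ))..(2 * δ), F j t (s, y)) ?_ 0 (l j)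
  refine intervalIntegral.continuous_parametric_intervalIntegral_of_continuous'
    (f := fun (q : ℝ × ℝ) (y : ℝ) => F j q.1 (q.2, y)) ?_ (-(2 * δ)) (2 * δ)
  exact (hF j).comp ((continuous_fst.comp continuous_fst).prodMk
    ((continuous_snd.comp continuous_fst).prodMk continuous_snd))

theorem fubI {J : Type} [Fintype J] {F : J → ℝ → Pl → ℂ}
    (hF : ∀ j, Continuous fun q : ℝ × Pl => F j q.1 q.2) {ρd : ℝ → ℝ} (hρ : Continuous ρd)
    {δ : ℝ} (hδ : 0 < δ) {l : J → ℝ} (hl : ∀ j, 0 ≤ l j) {β : ℝ}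
    (hβ : ∀ pt : J → Pl, (∀ j, |(pt j).2| ≤ 2 * δ) →
      ‖∫ t in (0 : ℝ)..1, (ρd t : ℂ) * ∏ j, F j t (pt j)‖ ≤ β) :
    ‖∫ t in (0 : ℝ)..1, (ρd t : ℂ) * ∏ j, ∫ s in (0 : ℝ)..l j,
        ∫ y in (-(2 * δ))..(2 * δ), F j t (s, y)‖ ≤ β * ∏ j, (4 * δ * l j) := by
  set S : J → Set Pl := fun j => Icc 0 (l j) ×ˢ Icc (-(2 * δ)) (2 * δ) with hS
  have hSc : ∀ j, IsCompact (S j) := fun j => isCompact_Icc.prod isCompact_Icc
  have hSm : ∀ j, MeasurableSet (S j) := fun j => measurableSet_Icc.prod measurableSet_Icc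
  set μ : J → Measure Pl := fun j => (volume : Measure Pl).restrict (S j) with hμ
  have hfin : ∀ j, IsFiniteMeasure (μ j) := fun j =>
    ⟨by
      rw [hμ]
      simp only [Measure.restrict_apply_univ]
      exact (hSc j).measure_lt_top⟩
  -- one factor
  have h1 : ∀ (j : J) (t : ℝ), ∫ s in (0 : ℝ)..l j, ∫ y in (-(2 * δ))..(2 * δ), F j t (s, y) =
      ∫ p, F j t p ∂(μ j) := by
    intro j t
    have hc : Continuous fun p : Pl => F j t p :=
      (hF j).comp (continuous_const.prodMk continuous_id)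
    have h2 : IntegrableOn (fun p : ℝ × ℝ => F j t p) (S j) (volume.prod volume) :=
      hc.continuousOn.integrableOn_compact (hSc j)
    have h3 := setIntegral_prod (fun p : ℝ × ℝ => F j t p) h2
    rw [intervalIntegral.integral_of_le (hl j), ← integral_Icc_eq_integral_Ioc]
    have h4 : ∫ p, F j t p ∂(μ j) = ∫ p in S j, F j t p ∂(volume.prod volume) := rfl
    rw [h4, h3]
    refine setIntegral_congr_fun measurableSet_Icc fun s _ => ?_
    show ∫ y in (-(2 * δ))..(2 * δ), F j t (s, y) = ∫ y in Icc (-(2 * δ)) (2 * δ), F j t (s, y)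
    rw [intervalIntegral.integral_of_le (by linarith), integral_Icc_eq_integral_Ioc]
  have h2 : ∀ t : ℝ, ∏ j, ∫ s in (0 : ℝ)..l j, ∫ y in (-(2 * δ))..(2 * δ), F j t (s, y) =
      ∫ z : J → Pl, ∏ j, F j t (z j) ∂(Measure.pi μ) := by
    intro t
    rw [integral_fintype_prod_eq_prod (μ := μ) (f := fun j p => F j t p)]
    exact Finset.prod_congr rfl fun j _ => h1 j t
  have hpi : Measure.pi μ = (Measure.pi fun _ : J => (volume : Measure Pl)).restrict
      (Set.pi univ S) := (Measure.restrict_pi_pi _ _).symm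
  have hH : Continuous fun q : ℝ × (J → Pl) => (ρd q.1 : ℂ) * ∏ j, F j q.1 (q.2 j) := by
    refine (Complex.continuous_ofReal.comp (hρ.comp continuous_fst)).mul
      (continuous_finsetProd _ fun j _ => ?_)
    exact (hF j).comp (continuous_fst.prodMk ((continuous_apply j).comp continuous_snd))
  have hKc : IsCompact (Icc (0 : ℝ) 1 ×ˢ Set.pi univ S) :=
    isCompact_Icc.prod (isCompact_univ_pi hSc)
  have hint : Integrable (Function.uncurry fun (t : ℝ) (z : J → Pl) =>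
      (ρd t : ℂ) * ∏ j, F j t (z j))
      ((volume.restrict (Ioc (0 : ℝ) 1)).prod (Measure.pi μ)) := by
    rw [hpi, Measure.prod_restrict]
    exact (hH.continuousOn.integrableOn_compact hKc).mono_set
      (prod_mono Ioc_subset_Icc_self le_rfl)
  have h3 : ∫ t in (0 : ℝ)..1, (ρd t : ℂ) * ∏ j, ∫ s in (0 : ℝ)..l j,
        ∫ y in (-(2 * δ))..(2 * δ), F j t (s, y) =
      ∫ z : J → Pl, (∫ t in (0 : ℝ)..1, (ρd t : ℂ) * ∏ j, F j t (z j)) ∂(Measure.pi μ) := by
    simp only [h2, intervalIntegral.integral_of_le zero_le_one]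
    rw [← integral_integral_swap hint]
    refine integral_congr_ae (Eventually.of_forall fun t => ?_)
    exact (integral_const_mul _ _).symm
  rw [h3]
  have h4 : ∀ᵐ z ∂(Measure.pi μ),
      ‖∫ t in (0 : ℝ)..1, (ρd t : ℂ) * ∏ j, F j t (z j)‖ ≤ β := by
    rw [hpi]
    refine ae_restrict_of_forall_mem (MeasurableSet.univ_pi hSm) fun z hz => hβ z fun j => ?_
    have h5 := (hz j (mem_univ j)).2
    exact abs_le.2 ⟨h5.1, h5.2⟩
  refine (norm_integral_le_of_norm_le_const h4).trans (le_of_eq ?_)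
  congr 1
  rw [Measure.real, Measure.pi_univ, ENNReal.toReal_prod]
  refine Finset.prod_congr rfl fun j _ => ?_
  rw [hμ]
  simp only [Measure.restrict_apply_univ]
  have h5 : (volume : Measure Pl) (S j) = volume (Icc 0 (l j)) * volume (Icc (-(2 * δ)) (2 * δ)) :=
    Measure.prod_prod _ _
  rw [h5, Real.volume_Icc, Real.volume_Icc, ENNReal.toReal_mul,
    ENNReal.toReal_ofReal (by linarith [hl j]), ENNReal.toReal_ofReal (by linarith)]
  ring

end BD36
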