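import Pool.Agent.LibBE36D.D8
import Pool.Agent.LibBE36D.D9
import Pool.Agent.LibBE66.M1

/-! ROW D10 : the decorrelation for one block. SHORT/MEDIUM. Template: LibBE66/M1 (`D_cont`, `D_main`). Cites D8 `inner`, D9 `GG_cont`, `fubI`, `fubI_cont`.
PLAN. `cj (ep j) (ZT ..) = ∫ s, ∫ y, cj (ep j) (θ GG ..)` (as in M1), `F j t q = cj (ep j) (θ q.2 * GG ..)` is continuous (`hθ`, `GG_cont`); `fubI` with
`ρd t = (4 t (1 - t)) ^ Mb` and `β` the bound of `inner`; `∏ (4 δ l0 j) ≤ (4 ρ)^card J ≤ V^card J`-like: increase `C` (`4 ρ ≤ vv C ..`), so that the power is `N + 2` in place of `N + 1`. -/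

open MeasureTheory Set Filter Topology Metric
open scoped ContDiff

namespace BD36

open BGS BR BE B35 BE66 B36

variable {Γ : Type} [Group Γ] [MulAction Γ Pl] {D : Set Pl} {ι : Type} {m : Pl → Co}
  {a b b0 : ℝ} {L0 : ℕ} {s s0 : ι → ℝ × Pl → ℝ} {nn : ι → ℕ} {pc : ι → ℤ × ℤ} {w v e : ι → ℝ}
  {Q : ι → ℝ}

private theorem D10_cj (e : Bool) (f : Pl → ℂ) (l0 δ : ℝ) :
    B35.cj e (∫ s in (0 : ℝ)..l0, ∫ y in (-(2 * δ))..(2 * δ), f (s, y)) =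
      ∫ s in (0 : ℝ)..l0, ∫ y in (-(2 * δ))..(2 * δ), B35.cj e (f (s, y)) := by
  cases e with
  | true =>
    simp only [B35.cj, if_true]
  | false =>
    have h1 : ∀ z : ℂ, B35.cj false z = (starRingEnd ℂ) z := fun z => by simp [B35.cj]
    simp only [h1]
    have h2 : ∀ (u w : ℝ) (F : ℝ → ℂ), ∫ y in u..w, (starRingEnd ℂ) (F y) =
        (starRingEnd ℂ) (∫ y in u..w, F y) := by
      intro u w F
      rw [intervalIntegral.intervalIntegral_eq_integral_uIoc,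
        intervalIntegral.intervalIntegral_eq_integral_uIoc, integral_conj]
      split_ifs
      · rw [one_smul, one_smul]
      · rw [neg_one_smul, neg_one_smul, map_neg]
    simp only [h2]

private theorem D10_cont (e : Bool) : Continuous (B35.cj e) := by
  cases e with
  | true =>
    have h1 : B35.cj true = fun z => z := by
      funext z
      simp [B35.cj]
    rw [h1]
    exact continuous_id
  | false =>
    have h1 : B35.cj false = fun z => (starRingEnd ℂ) z := by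
      funext z
      simp [B35.cj]
    rw [h1]
    exact Complex.continuous_conj

private theorem D10_ZT (m0 m1 : Pl → Co) (θ : ℝ → ℝ) (δ : ℝ) (N : ℕ) (b : ℝ → ℂ) (τ : ℝ)
    (e : Bool) (g : Γ) (x0 v0 : Pl) (l0 : ℝ) : B35.cj e (ZT m0 m1 θ δ N b τ g x0 v0 l0) =
      ∫ s in (0 : ℝ)..l0, ∫ y in (-(2 * δ))..(2 * δ),
        B35.cj e (((θ y : ℝ) : ℂ) * GG m0 m1 N b τ g x0 v0 (s, y)) :=
  D10_cj e (fun p => ((θ p.2 : ℝ) : ℂ) * GG m0 m1 N b τ g x0 v0 p) l0 δ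

private theorem D10_F (h : DG Γ D m a b b0 L0 s s0 nn pc w v e) (i : ι) (N : ℕ)
    {ρ M H η : ℝ} (hρ : 0 ≤ ρ) (hM : 0 ≤ M) (hH : 1 ≤ H) (hη : 1 ≤ η)
    {β : ℂ → ℂ} {τ : ℝ} (ep : Bool) {g : Γ} {x v' : Pl} {l : ℝ}
    (hβ : EA β ρ M H η) (hτ : 1 ≤ τ) (hA : Axis (mm m (s0 i) 0) g x v' l)
    {θ : ℝ → ℝ} (hθ : Continuous θ) :
    Continuous fun q : ℝ × Pl => B35.cj ep (((θ q.2.2 : ℝ) : ℂ) *
      GG (mm m (s0 i) 0) (mm m (s i) (v i * q.1)) N (rst β) τ g x v' q.2) := by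
  refine (D10_cont ep).comp (Continuous.mul ?_ (GG_cont h i hA N hρ hM hH hη hβ hτ))
  exact Complex.continuous_ofReal.comp (hθ.comp (continuous_snd.comp continuous_snd))

theorem ZT_cont (h : DG Γ D m a b b0 L0 s s0 nn pc w v e) (i : ι) {J : Type} [Fintype J] (N : ℕ)
    (δ : ℝ) {ρ M H η : ℝ} (hρ : 0 ≤ ρ) (hM : 0 ≤ M) (hH : 1 ≤ H) (hη : 1 ≤ η)
    {β : J → ℂ → ℂ} {τ : J → ℝ} (ep : J → Bool) {g : J → Γ} {x v' : J → Pl} {l : J → ℝ}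
    (l0 : J → ℝ) (hβ : ∀ j, EA (β j) ρ M H η) (hτ : ∀ j, 1 ≤ τ j)
    (hA : ∀ j, Axis (mm m (s0 i) 0) (g j) (x j) (v' j) (l j)) {θ : ℝ → ℝ} (hθ : Continuous θ) :
    Continuous fun t => ∏ j, B35.cj (ep j) (ZT (mm m (s0 i) 0) (mm m (s i) (v i * t)) θ δ N
        (rst (β j)) (τ j) (g j) (x j) (v' j) (l0 j)) := by
  have hF := fun j => D10_F h i N hρ hM hH hη (ep j) (hβ j) (hτ j) (hA j) hθ
  have h1 := fubI_cont (F := fun j t p => B35.cj (ep j) (((θ p.2 : ℝ) : ℂ) *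
    GG (mm m (s0 i) 0) (mm m (s i) (v i * t)) N (rst (β j)) (τ j) (g j) (x j) (v' j) p)) hF δ l0
  have h2 : (fun t => ∏ j, B35.cj (ep j) (ZT (mm m (s0 i) 0) (mm m (s i) (v i * t)) θ δ N
        (rst (β j)) (τ j) (g j) (x j) (v' j) (l0 j))) = fun t => ∏ j, ∫ s' in (0 : ℝ)..l0 j,
        ∫ y in (-(2 * δ))..(2 * δ), B35.cj (ep j) (((θ y : ℝ) : ℂ) *
        GG (mm m (s0 i) 0) (mm m (s i) (v i * t)) N (rst (β j)) (τ j) (g j) (x j) (v' j)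
          (s', y)) := by
    funext t
    exact Finset.prod_congr rfl fun j _ => D10_ZT _ _ _ _ _ _ _ _ _ _ _ _
  rw [h2]
  exact h1

theorem main (h : DG Γ D m a b b0 L0 s s0 nn pc w v e) (hP : PX Γ m s Q) (hQ : ∀ i, 1 ≤ Q i)
    (J : Type) [Fintype J] {Λ1 : ℝ} (hΛ : 1 ≤ Λ1) :
    ∃ C : ℕ, 1 ≤ C ∧ ∀ (i : ι) (N Mb : ℕ) (T ρ δ M0 H η V : ℝ), 1 ≤ T → 1 ≤ ρ → 0 < δ → δ ≤ 1 →
      0 ≤ M0 → 1 ≤ H → 1 ≤ η → V = vv C N (Q i) H ρ → V * v i ≤ 1 →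
      V * v i ^ 2 * ((nn i : ℝ) + 1) ^ 2 ≤ w i →
      C * (1 + ρ) ^ 2 * ((nn i : ℝ) + 1) ^ 3 * (√(e i) + δ) ≤ 1 →
      C * (1 + ρ) ^ 2 ≤ √((nn i : ℝ) + 1) →
      ∀ (β : J → ℂ → ℂ) (τ : J → ℝ) (ep : J → Bool) (g : J → Γ) (x v' : J → Pl) (l l0 : J → ℝ),
      (∀ j, EA (β j) ρ M0 H η) → (∀ j, 1 ≤ τ j ∧ τ j ≤ Λ1 * T) →
      (∀ j, Axis (mm m (s0 i) 0) (g j) (x j) (v' j) (l j)) → (∀ j, l j ≤ ρ) →
      (∀ j, 0 ≤ l0 j ∧ l0 j ≤ ρ) →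
      ((nn i : ℝ) + 1) ^ (-(3 / 2) : ℝ) ≤ |∑ j, sgn (ep j) * (τ j / T) *
        pint Γ (mm m (s0 i) 0) (nn i + 1) (pc i) (x j) (v' j) (l j)| →
      ∀ θ : ℝ → ℝ, Continuous θ → (∀ y, |θ y| ≤ 1) →
      ‖∫ t in (0 : ℝ)..1, (((4 * t * (1 - t)) ^ Mb : ℝ) : ℂ) * ∏ j, B35.cj (ep j)
        (ZT (mm m (s0 i) 0) (mm m (s i) (v i * t)) θ δ N (rst (β j)) (τ j) (g j) (x j) (v' j)
          (l0 j))‖ ≤
        (V ^ (N + 2) * (T * M0)) ^ Fintype.card J *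
          (Real.exp (Mb - T * w i * ((nn i : ℝ) + 1) ^ (-(3 / 2) : ℝ) / C) + (1 / 5) ^ Mb) := by
  obtain ⟨C, hC1, hC⟩ := inner h hP hQ J hΛ
  set c := Fintype.card J with hc
  refine ⟨4 * C, by omega, ?_⟩
  intro i N Mb T ρ δ M0 H η V hT hρ1 hδ hδ1 hM0 hH hη hV hv1 hv2 hs1 hs2 β τ ep g x v' l l0 hβ hτ
    hA hl hl0 hp θ hθ hθ1
  have hC0 : (1 : ℝ) ≤ (C : ℝ) := by exact_mod_cast hC1
  have hCr : (C : ℝ) ≤ ((4 * C : ℕ) : ℝ) := by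
    push_cast
    linarith
  have hn0 : (0 : ℝ) < (nn i : ℝ) + 1 := by positivity
  have hvm := h.v_mem i
  have hwm := h.w_mem i
  have hQi := hQ i
  have hT0 : (0 : ℝ) < T := by linarith
  -- the sizes
  set X : ℝ := ((N : ℝ) + 1) * Q i * H * (1 + ρ) with hX
  have hN1 : (1 : ℝ) ≤ (N : ℝ) + 1 := by
    have : (0 : ℝ) ≤ N := Nat.cast_nonneg N
    linarith
  have hX0 : 1 + ρ ≤ X := by
    have h1 : 1 ≤ ((N : ℝ) + 1) * Q i * H :=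
      one_le_mul_of_one_le_of_one_le (one_le_mul_of_one_le_of_one_le hN1 hQi) hH
    rw [hX]
    nlinarith
  have hX1 : 1 ≤ X := by linarith
  obtain ⟨V1, hV1⟩ : ∃ V1 : ℝ, V1 = vv C N (Q i) H ρ := ⟨_, rfl⟩
  have hV1e : V1 = ((C : ℝ) * X) ^ C := hV1
  have hVe : V = (((4 * C : ℕ) : ℝ) * X) ^ (4 * C) := hV
  have hb1 : 1 ≤ (C : ℝ) * X := one_le_mul_of_one_le_of_one_le hC0 hX1
  have hb2 : (C : ℝ) * X ≤ ((4 * C : ℕ) : ℝ) * X := mul_le_mul_of_nonneg_right hCr (by linarith)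
  have hV1V : V1 ≤ V := by
    rw [hV1e, hVe]
    exact (pow_le_pow_left₀ (by linarith) hb2 C).trans
      (pow_le_pow_right₀ (hb1.trans hb2) (by omega))
  have hV11 : 1 ≤ V1 := by
    rw [hV1e]
    exact one_le_pow₀ hb1
  have hVρ : 4 * ρ ≤ V := by
    have h1 : ((4 * C : ℕ) : ℝ) * X ≤ V := by
      rw [hVe]
      exact le_self_pow₀ (hb1.trans hb2) (by omega)
    have h2 : 4 * (1 + ρ) ≤ ((4 * C : ℕ) : ℝ) * X := by
      push_cast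
      nlinarith
    linarith
  have hV0 : 0 < V1 := by linarith
  have hv1' : V1 * v i ≤ 1 := (mul_le_mul_of_nonneg_right hV1V hvm.1.le).trans hv1
  have hv2' : V1 * v i ^ 2 * ((nn i : ℝ) + 1) ^ 2 ≤ w i := by
    refine le_trans ?_ hv2
    gcongr
  have hs1' : C * (1 + ρ) ^ 2 * ((nn i : ℝ) + 1) ^ 3 * (√(e i) + δ) ≤ 1 := by
    refine le_trans ?_ hs1
    gcongr
  have hs2' : C * (1 + ρ) ^ 2 ≤ √((nn i : ℝ) + 1) := by
    refine le_trans ?_ hs2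
    gcongr
  have hin := hC i N Mb T ρ δ M0 H η V1 hT hρ1 hδ hδ1 hM0 hH hη hV1 hv1' hv2' hs1' hs2' β τ ep g x
    v' l hβ hτ hA hl hp θ hθ1
  have hF := fun j => D10_F h i N (by linarith : (0 : ℝ) ≤ ρ) hM0 hH hη (ep j) (hβ j) (hτ j).1
    (hA j) hθ
  have hρc : Continuous fun t : ℝ => (4 * t * (1 - t)) ^ Mb := by fun_prop
  have h1 := fubI (F := fun j t p => B35.cj (ep j) (((θ p.2 : ℝ) : ℂ) *
    GG (mm m (s0 i) 0) (mm m (s i) (v i * t)) N (rst (β j)) (τ j) (g j) (x j) (v' j) p)) hF hρc hδ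
    (l := l0) (fun j => (hl0 j).1) hin
  have h2 : (fun t : ℝ => (((4 * t * (1 - t)) ^ Mb : ℝ) : ℂ) * ∏ j, B35.cj (ep j)
        (ZT (mm m (s0 i) 0) (mm m (s i) (v i * t)) θ δ N (rst (β j)) (τ j) (g j) (x j) (v' j)
          (l0 j))) = fun t => (((4 * t * (1 - t)) ^ Mb : ℝ) : ℂ) * ∏ j, ∫ s' in (0 : ℝ)..l0 j,
        ∫ y in (-(2 * δ))..(2 * δ), B35.cj (ep j) (((θ y : ℝ) : ℂ) *
        GG (mm m (s0 i) 0) (mm m (s i) (v i * t)) N (rst (β j)) (τ j) (g j) (x j) (v' j)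
          (s', y)) := by
    funext t
    congr 1
    exact Finset.prod_congr rfl fun j _ => D10_ZT _ _ _ _ _ _ _ _ _ _ _ _
  rw [h2]
  refine h1.trans ?_
  -- the volume
  have hvol : ∏ j, (4 * δ * l0 j) ≤ (4 * ρ) ^ c := by
    rw [hc, ← Finset.card_univ, ← Finset.prod_const]
    refine Finset.prod_le_prod (fun j _ => by have := (hl0 j).1; positivity) fun j _ => ?_
    have h3 := (hl0 j).1
    have h5 := (hl0 j).2
    have h6 : δ * l0 j ≤ 1 * ρ := mul_le_mul hδ1 h5 h3 zero_le_one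
    rw [mul_assoc]
    linarith
  have hexp : Real.exp (Mb - T * w i * ((nn i : ℝ) + 1) ^ (-(3 / 2) : ℝ) / C) ≤
      Real.exp (Mb - T * w i * ((nn i : ℝ) + 1) ^ (-(3 / 2) : ℝ) / ((4 * C : ℕ) : ℝ)) := by
    apply Real.exp_le_exp.2
    have h7 : T * w i * ((nn i : ℝ) + 1) ^ (-(3 / 2) : ℝ) / ((4 * C : ℕ) : ℝ) ≤
        T * w i * ((nn i : ℝ) + 1) ^ (-(3 / 2) : ℝ) / C := by
      have h8 : 0 ≤ T * w i * ((nn i : ℝ) + 1) ^ (-(3 / 2) : ℝ) := by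
        have := hwm.1
        positivity
      exact div_le_div_of_nonneg_left h8 (by linarith) hCr
    linarith
  have hTM : 0 ≤ T * M0 := by positivity
  have hbase : V1 ^ (N + 1) * (T * M0) * (4 * ρ) ≤ V ^ (N + 2) * (T * M0) := by
    have h9 : V1 ^ (N + 1) * (4 * ρ) ≤ V ^ (N + 2) := by
      rw [pow_succ V (N + 1)]
      exact mul_le_mul (pow_le_pow_left₀ hV0.le hV1V _) hVρ (by positivity) (by
        have : 0 < V := by linarith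
        positivity)
    calc V1 ^ (N + 1) * (T * M0) * (4 * ρ) = V1 ^ (N + 1) * (4 * ρ) * (T * M0) := by ring
      _ ≤ V ^ (N + 2) * (T * M0) := mul_le_mul_of_nonneg_right h9 hTM
  set A1 : ℝ := Real.exp (Mb - T * w i * ((nn i : ℝ) + 1) ^ (-(3 / 2) : ℝ) / C) + (1 / 5) ^ Mb
  set A2 : ℝ := Real.exp (Mb - T * w i * ((nn i : ℝ) + 1) ^ (-(3 / 2) : ℝ) / ((4 * C : ℕ) : ℝ)) +
    (1 / 5) ^ Mb with hA2
  have hA12 : A1 ≤ A2 := add_le_add hexp le_rfl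
  have hA1 : 0 ≤ A1 := by positivity
  have hA20 : 0 ≤ A2 := by positivity
  calc (V1 ^ (N + 1) * (T * M0)) ^ c * A1 * ∏ j, (4 * δ * l0 j)
      ≤ (V1 ^ (N + 1) * (T * M0)) ^ c * A1 * (4 * ρ) ^ c := by
        refine mul_le_mul_of_nonneg_left hvol ?_
        positivity
    _ = (V1 ^ (N + 1) * (T * M0) * (4 * ρ)) ^ c * A1 := by
        rw [mul_pow (V1 ^ (N + 1) * (T * M0)) (4 * ρ)]
        ring
    _ ≤ (V ^ (N + 2) * (T * M0)) ^ c * A2 := by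
        refine mul_le_mul (pow_le_pow_left₀ (by positivity) hbase c) hA12 hA1 ?_
        have : 0 < V := by linarith
        positivity

end BD36
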