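import Mathlib

/-! ROW D2 : the imaginary part of a real phase at complex points. SHORT/MEDIUM, ONLY MATHLIB.
PLAN. Fix `x ∈ [0, 1]` and `u y = Im g (x + i y)`, `0 ≤ y ≤ 1 / 24`. `u 0 = Im (f x) = 0`, `u' y = Im (i g' (x + i y)) = Re g' (x + i y)`
(`HasDerivAt.comp_ofReal` or `HasDerivAt.scomp`). `g' (x)` is real and equals `deriv f x ≥ S` (both are the derivative of
`t ↦ g t` along the reals; `f` agrees with `g` near `x`; if `f` is not differentiable then `deriv f x = 0 < S`, but it is: `(f t : ℂ) = g t`, take real parts). `|g' (x + i y) - g' (x)| ≤ y sup |g''| ≤ (1 / 24) 8 B / r^2`: Cauchy estimates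
(`Complex.norm_deriv_le_of_forall_mem_sphere_norm_le`) for `g` on balls of radius `r / 4` around points of norm `≤ 1.1 + r / 4` and then for `g'`: `|z| ≤ 1.1`, `r ≥ 4`,
`|g''(z)| ≤ 32 B / r^2`. With `64 B / r^2 ≤ S` this is `≤ S / 2`. So `u' ≥ S / 2`, `u y ≥ S y / 2` (`image_sub_le_mul_sub_of_deriv_le` or monotonicity of
`u y - S y / 2`, `monotoneOn_of_deriv_nonneg`). -/

open MeasureTheory Set Filter Topology Metric

namespace BD36

private theorem D2_deriv_le {g : ℂ → ℂ} {r B : ℝ} (hr : 4 ≤ r)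
    (hg : DifferentiableOn ℂ g (ball 0 r)) (hb : ∀ z ∈ ball (0 : ℂ) r, ‖g z‖ ≤ B) {z : ℂ}
    (hz : ‖z‖ ≤ 11 / 10 + r / 4) : ‖deriv g z‖ ≤ B / (r / 4) := by
  have hr4 : 0 < r / 4 := by linarith
  have hsub : closedBall z (r / 4) ⊆ ball (0 : ℂ) r := by
    intro w hw
    rw [mem_closedBall, dist_eq_norm] at hw
    rw [mem_ball, dist_zero_right]
    have h1 : ‖w‖ ≤ ‖w - z‖ + ‖z‖ := by
      have := norm_add_le (w - z) z
      rwa [sub_add_cancel] at this
    linarith
  refine Complex.norm_deriv_le_of_forall_mem_sphere_norm_le hr4 ?_ ?_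
  · refine DifferentiableOn.diffContOnCl ?_
    rw [closure_ball z hr4.ne']
    exact hg.mono hsub
  · intro w hw
    exact hb w (hsub (sphere_subset_closedBall hw))

private theorem D2_deriv2_le {g : ℂ → ℂ} {r B : ℝ} (hr : 4 ≤ r)
    (hg : DifferentiableOn ℂ g (ball 0 r)) (hb : ∀ z ∈ ball (0 : ℂ) r, ‖g z‖ ≤ B) {z : ℂ}
    (hz : ‖z‖ ≤ 11 / 10) : ‖deriv (deriv g) z‖ ≤ B / (r / 4) / (r / 4) := by
  have hr4 : 0 < r / 4 := by linarith
  have hsub : closedBall z (r / 4) ⊆ ball (0 : ℂ) r := by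
    intro w hw
    rw [mem_closedBall, dist_eq_norm] at hw
    rw [mem_ball, dist_zero_right]
    have h1 : ‖w‖ ≤ ‖w - z‖ + ‖z‖ := by
      have := norm_add_le (w - z) z
      rwa [sub_add_cancel] at this
    linarith
  refine Complex.norm_deriv_le_of_forall_mem_sphere_norm_le hr4 ?_ ?_
  · refine DifferentiableOn.diffContOnCl ?_
    rw [closure_ball z hr4.ne']
    exact (hg.deriv isOpen_ball).mono hsub
  · intro w hw
    refine D2_deriv_le hr hg hb ?_
    rw [mem_sphere, dist_eq_norm] at hw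
    have h1 : ‖w‖ ≤ ‖w - z‖ + ‖z‖ := by
      have := norm_add_le (w - z) z
      rwa [sub_add_cancel] at this
    linarith

theorem phase_im {f : ℝ → ℝ} {g : ℂ → ℂ} {r B S : ℝ} (hr : 4 ≤ r)
    (hg : DifferentiableOn ℂ g (ball 0 r)) (hb : ∀ z ∈ ball (0 : ℂ) r, ‖g z‖ ≤ B)
    (hf : ∀ t : ℝ, |t| < r → g t = f t) (hS : 0 < S) (hd : ∀ t ∈ Icc (0 : ℝ) 1, S ≤ deriv f t)
    (hB : 64 * B / r ^ 2 ≤ S) : ∀ x ∈ Icc (0 : ℝ) 1, ∀ y ∈ Icc (0 : ℝ) (1 / 24),
      S / 2 * y ≤ (g ((x : ℂ) + (y : ℂ) * Complex.I)).im := by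
  intro x hx y hy
  have hr0 : 0 < r := by linarith
  have hnorm : ∀ s ∈ Icc (0 : ℝ) (1 / 24), ‖(x : ℂ) + (s : ℂ) * Complex.I‖ ≤ 11 / 10 := by
    intro s hs
    refine (norm_add_le _ _).trans ?_
    rw [norm_mul, Complex.norm_I, mul_one, Complex.norm_real, Complex.norm_real, Real.norm_of_nonneg hx.1,
      Real.norm_of_nonneg hs.1]
    linarith [hx.2, hs.2]
  have hball : ∀ z : ℂ, ‖z‖ ≤ 11 / 10 → z ∈ ball (0 : ℂ) r := by
    intro z hz
    rw [mem_ball, dist_zero_right]
    linarith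
  have hB2 : B / (r / 4) / (r / 4) ≤ S := by
    have hB0 : 0 ≤ B := (norm_nonneg _).trans (hb 0 (mem_ball_self hr0))
    have e : B / (r / 4) / (r / 4) = 16 * B / r ^ 2 := by
      field_simp
      norm_num
    rw [e]
    refine le_trans ?_ hB
    apply div_le_div_of_nonneg_right _ (by positivity)
    linarith
  -- the derivative on the real line
  have hxd : deriv g (x : ℂ) = ((deriv f x : ℝ) : ℂ) := by
    have hfd : DifferentiableAt ℝ f x := by
      by_contra h
      have h1 := hd x hx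
      rw [deriv_zero_of_not_differentiableAt h] at h1
      linarith
    have h1 : HasDerivAt (fun t : ℝ => ((f t : ℝ) : ℂ)) ((deriv f x : ℝ) : ℂ) x := hfd.hasDerivAt.ofReal_comp
    have hxb : (x : ℂ) ∈ ball (0 : ℂ) r := by
      apply hball
      rw [Complex.norm_real, Real.norm_of_nonneg hx.1]
      linarith [hx.2]
    have h2 : HasDerivAt (fun t : ℝ => g (t : ℂ)) (deriv g (x : ℂ)) x :=
      (hg.differentiableAt (isOpen_ball.mem_nhds hxb)).hasDerivAt.comp_ofReal
    have h3 : (fun t : ℝ => g (t : ℂ)) =ᶠ[𝓝 x] fun t : ℝ => ((f t : ℝ) : ℂ) := by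
      have h4 : ∀ᶠ t in 𝓝 x, |t| < r :=
        (continuous_abs.tendsto x).eventually (gt_mem_nhds (by rw [abs_of_nonneg hx.1]; linarith [hx.2]))
      filter_upwards [h4] with t ht
      exact hf t ht
    exact h2.unique (h1.congr_of_eventuallyEq h3)
  have hre : ∀ s ∈ Icc (0 : ℝ) (1 / 24), S / 2 ≤ (deriv g ((x : ℂ) + (s : ℂ) * Complex.I)).re := by
    intro s hs
    have h1 : ‖deriv g ((x : ℂ) + (s : ℂ) * Complex.I) - deriv g (x : ℂ)‖ ≤
        S * ‖((x : ℂ) + (s : ℂ) * Complex.I) - (x : ℂ)‖ := by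
      refine Convex.norm_image_sub_le_of_norm_deriv_le (𝕜 := ℂ) (s := closedBall (0 : ℂ) (11 / 10)) ?_ ?_
        (convex_closedBall _ _) ?_ ?_
      · intro z hz
        rw [mem_closedBall, dist_zero_right] at hz
        exact (hg.deriv isOpen_ball).differentiableAt (isOpen_ball.mem_nhds (hball z hz))
      · intro z hz
        rw [mem_closedBall, dist_zero_right] at hz
        exact (D2_deriv2_le hr hg hb hz).trans hB2
      · rw [mem_closedBall, dist_zero_right, Complex.norm_real, Real.norm_of_nonneg hx.1]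
        linarith [hx.2]
      · rw [mem_closedBall, dist_zero_right]
        exact hnorm s hs
    have h2 : ‖((x : ℂ) + (s : ℂ) * Complex.I) - (x : ℂ)‖ = s := by
      rw [add_sub_cancel_left, norm_mul, Complex.norm_I, mul_one, Complex.norm_real, Real.norm_of_nonneg hs.1]
    rw [h2] at h1
    have h3 := (Complex.abs_re_le_norm _).trans h1
    rw [Complex.sub_re, hxd, Complex.ofReal_re] at h3
    have h4 := (abs_le.1 h3).1
    have h5 := hd x hx
    have h6 : S * s ≤ S * (1 / 24) := mul_le_mul_of_nonneg_left hs.2 hS.le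
    linarith
  have hder : ∀ s ∈ Icc (0 : ℝ) (1 / 24), HasDerivAt (fun s : ℝ => (g ((x : ℂ) + (s : ℂ) * Complex.I)).im - S / 2 * s)
      ((deriv g ((x : ℂ) + (s : ℂ) * Complex.I)).re - S / 2) s := by
    intro s hs
    have hz := hball _ (hnorm s hs)
    have h1 : HasDerivAt (fun w : ℂ => (x : ℂ) + w * Complex.I) (1 * Complex.I) (s : ℂ) :=
      ((hasDerivAt_id (s : ℂ)).mul_const Complex.I).const_add (x : ℂ)
    have h2 : HasDerivAt g (deriv g ((x : ℂ) + (s : ℂ) * Complex.I)) ((x : ℂ) + (s : ℂ) * Complex.I) :=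
      (hg.differentiableAt (isOpen_ball.mem_nhds hz)).hasDerivAt
    have h3 : HasDerivAt (fun w : ℂ => g ((x : ℂ) + w * Complex.I))
        (deriv g ((x : ℂ) + (s : ℂ) * Complex.I) * (1 * Complex.I)) (s : ℂ) := h2.comp (s : ℂ) h1
    have h4 := h3.comp_ofReal
    have h5 := Complex.imCLM.hasFDerivAt.comp_hasDerivAt s h4
    have h6 : HasDerivAt (fun s : ℝ => S / 2 * s) (S / 2) s := by
      simpa using (hasDerivAt_id s).const_mul (S / 2)
    have h7 := h5.sub h6
    refine h7.congr_deriv ?_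
    rw [one_mul]
    simp
  have hmono : MonotoneOn (fun s : ℝ => (g ((x : ℂ) + (s : ℂ) * Complex.I)).im - S / 2 * s) (Icc (0 : ℝ) (1 / 24)) := by
    refine monotoneOn_of_deriv_nonneg (convex_Icc _ _) ?_ ?_ ?_
    · exact fun s hs => (hder s hs).continuousAt.continuousWithinAt
    · exact fun s hs => (hder s (interior_subset hs)).differentiableAt.differentiableWithinAt
    · intro s hs
      rw [(hder s (interior_subset hs)).deriv]
      linarith [hre s (interior_subset hs)]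
  have h8 := hmono (show (0 : ℝ) ∈ Icc (0 : ℝ) (1 / 24) from ⟨le_refl _, by norm_num⟩) hy hy.1
  simp only [Complex.ofReal_zero, zero_mul, add_zero, mul_zero, sub_zero] at h8
  rw [hf x (by rw [abs_of_nonneg hx.1]; linarith [hx.2]), Complex.ofReal_im] at h8
  linarith

end BD36
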