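import Pool.Agent.LibBE36D.HX

/-! ROW D3 : algebra of `HX`. SHORT/MEDIUM, ONLY MATHLIB (and the definition).
PLAN. `HX_conj`: `z ↦ conj (g (conj z))` (`DifferentiableOn.star_star` / `differentiableAt_conj_conj_iff` or similar; `conj` maps the ball to itself).
`HX_prod`, `HX_sum`: `Finset.induction` or directly with the chosen extensions (`choose`). `HX_exp`: `exp ∘ g`, `‖exp z‖ ≤ exp ‖z‖`
(`Complex.norm_exp`, `re ≤ norm`). `HX_scale`: `z ↦ g (v z)`. `HX_lip` (Schwarz): `‖g z - g 0‖ ≤ 2 B ‖z‖ / r`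
(`Complex.dist_le_div_mul_dist_of_mapsTo_ball`: `g` maps `ball 0 r` into the ball of radius `2 B + η` around `g 0`; let `η → 0`; or Cauchy on `ball 0 (r / 2)` with
the constant `4 B / r`). -/

open MeasureTheory Set Filter Topology Metric

namespace BD36

theorem HX_mono {r r' B B' : ℝ} {f : ℝ → ℂ} (h : HX r B f) (hr : r' ≤ r) (hB : B ≤ B') :
    HX r' B' f := by
  obtain ⟨g, hg, hb, he⟩ := h
  exact ⟨g, hg.mono (ball_subset_ball hr), fun z hz => (hb z (ball_subset_ball hr hz)).trans hB,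
    fun t ht => he t (ht.trans_le hr)⟩

theorem HX_const (r : ℝ) (c : ℂ) : HX r ‖c‖ fun _ => c := by
  exact ⟨fun _ => c, differentiableOn_const c, fun _ _ => le_rfl, fun _ _ => rfl⟩

theorem HX_mul {r B B' : ℝ} {f f' : ℝ → ℂ} (h : HX r B f) (h' : HX r B' f') :
    HX r (B * B') fun t => f t * f' t := by
  obtain ⟨g, hg, hb, he⟩ := h
  obtain ⟨g', hg', hb', he'⟩ := h'
  refine ⟨fun z => g z * g' z, hg.mul hg', fun z hz => ?_, fun t ht => ?_⟩
  · rw [norm_mul]
    exact mul_le_mul (hb z hz) (hb' z hz) (norm_nonneg _) ((norm_nonneg _).trans (hb z hz))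
  · show g t * g' t = f t * f' t
    rw [he t ht, he' t ht]

theorem HX_add {r B B' : ℝ} {f f' : ℝ → ℂ} (h : HX r B f) (h' : HX r B' f') :
    HX r (B + B') fun t => f t + f' t := by
  obtain ⟨g, hg, hb, he⟩ := h
  obtain ⟨g', hg', hb', he'⟩ := h'
  refine ⟨fun z => g z + g' z, hg.add hg', fun z hz => ?_, fun t ht => ?_⟩
  · exact (norm_add_le _ _).trans (add_le_add (hb z hz) (hb' z hz))
  · show g t + g' t = f t + f' t
    rw [he t ht, he' t ht]

theorem HX_sum {κ : Type} (s : Finset κ) {r : ℝ} {B : κ → ℝ} {f : κ → ℝ → ℂ}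
    (h : ∀ k ∈ s, HX r (B k) (f k)) : HX r (∑ k ∈ s, B k) fun t => ∑ k ∈ s, f k t := by
  classical
  induction s using Finset.induction_on with
  | empty =>
    have h0 := HX_const r 0
    simpa using h0
  | insert a s ha ih =>
    have h1 := HX_add (h a (Finset.mem_insert_self a s))
      (ih fun k hk => h k (Finset.mem_insert_of_mem hk))
    simpa only [Finset.sum_insert ha] using h1

theorem HX_prod {κ : Type} (s : Finset κ) {r : ℝ} {B : κ → ℝ} {f : κ → ℝ → ℂ}
    (h : ∀ k ∈ s, HX r (B k) (f k)) : HX r (∏ k ∈ s, B k) fun t => ∏ k ∈ s, f k t := by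
  classical
  induction s using Finset.induction_on with
  | empty =>
    have h0 := HX_const r 1
    simpa using h0
  | insert a s ha ih =>
    have h1 := HX_mul (h a (Finset.mem_insert_self a s))
      (ih fun k hk => h k (Finset.mem_insert_of_mem hk))
    simpa only [Finset.prod_insert ha] using h1

theorem HX_cj (e : Bool) {r B : ℝ} {f : ℝ → ℂ} (h : HX r B f) : HX r B fun t => cj e (f t) := by
  obtain ⟨g, hg, hb, he⟩ := h
  cases e with
  | true => exact ⟨g, hg, hb, fun t ht => by rw [he t ht]; rfl⟩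
  | false =>
    have hball : ∀ z ∈ ball (0 : ℂ) r, (starRingEnd ℂ) z ∈ ball (0 : ℂ) r := by
      intro z hz
      rw [mem_ball_zero_iff] at hz ⊢
      rwa [Complex.norm_conj]
    refine ⟨fun z => (starRingEnd ℂ) (g ((starRingEnd ℂ) z)), fun z hz => ?_, fun z hz => ?_,
      fun t ht => ?_⟩
    · have h1 : DifferentiableAt ℂ g ((starRingEnd ℂ) z) :=
        (hg _ (hball z hz)).differentiableAt (isOpen_ball.mem_nhds (hball z hz))
      have h2 := h1.conj_conj
      rw [Complex.conj_conj] at h2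
      exact h2.differentiableWithinAt
    · rw [Complex.norm_conj]
      exact hb _ (hball z hz)
    · show (starRingEnd ℂ) (g ((starRingEnd ℂ) (t : ℂ))) = cj false (f t)
      rw [Complex.conj_ofReal, he t ht]
      rfl

theorem HX_exp {r B : ℝ} {f : ℝ → ℂ} (h : HX r B f) :
    HX r (Real.exp B) fun t => Complex.exp (f t) := by
  obtain ⟨g, hg, hb, he⟩ := h
  refine ⟨fun z => Complex.exp (g z), hg.cexp, fun z hz => ?_, fun t ht => ?_⟩
  · rw [Complex.norm_exp]
    exact Real.exp_le_exp.2 ((Complex.re_le_norm _).trans (hb z hz))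
  · show Complex.exp (g t) = Complex.exp (f t)
    rw [he t ht]

theorem HX_scale {r B v : ℝ} (hv : 0 < v) {f : ℝ → ℂ} (h : HX r B f) :
    HX (r / v) B fun t => f (v * t) := by
  obtain ⟨g, hg, hb, he⟩ := h
  have hball : ∀ z ∈ ball (0 : ℂ) (r / v), (v : ℂ) * z ∈ ball (0 : ℂ) r := by
    intro z hz
    rw [mem_ball_zero_iff] at hz ⊢
    rw [norm_mul, Complex.norm_real, Real.norm_of_nonneg hv.le, mul_comm]
    exact (lt_div_iff₀ hv).1 hz
  refine ⟨fun z => g ((v : ℂ) * z), hg.comp ((differentiable_id.const_mul (v : ℂ)).differentiableOn)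
    hball, fun z hz => hb _ (hball z hz), fun t ht => ?_⟩
  show g ((v : ℂ) * (t : ℂ)) = f (v * t)
  rw [← Complex.ofReal_mul]
  apply he
  rw [abs_mul, abs_of_pos hv, mul_comm]
  exact (lt_div_iff₀ hv).1 ht

theorem HX_lip {r B : ℝ} (hr : 0 < r) (hB : 0 ≤ B) {g : ℂ → ℂ} (hg : DifferentiableOn ℂ g (ball 0 r))
    (hb : ∀ z ∈ ball (0 : ℂ) r, ‖g z‖ ≤ B) {z : ℂ} (hz : z ∈ ball (0 : ℂ) (r / 2)) :
    ‖g z - g 0‖ ≤ 4 * B / r * ‖z‖ := by
  have hz' : z ∈ ball (0 : ℂ) r := ball_subset_ball (by linarith) hz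
  have h0 : (0 : ℂ) ∈ ball (0 : ℂ) r := mem_ball_self hr
  have hmaps : MapsTo g (ball 0 r) (closedBall (g 0) (4 * B)) := by
    intro w hw
    rw [mem_closedBall, dist_eq_norm]
    have h1 := norm_sub_le (g w) (g 0)
    have h2 := hb w hw
    have h3 := hb 0 h0
    linarith
  have h4 := Complex.dist_le_div_mul_dist_of_mapsTo_ball hg hmaps hz'
  rwa [dist_eq_norm, dist_zero_right] at h4

/-- Composition with a function holomorphic near the value at `0`. -/
theorem HX_comp {r B ρ C : ℝ} (hr : 0 < r) (hρ : 0 < ρ) (hB : 0 < B) {f : ℝ → ℂ}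
    {F : ℂ → ℂ} (h : HX r B f) (hF : DifferentiableOn ℂ F (ball (f 0) ρ))
    (hC : ∀ z ∈ ball (f 0) ρ, ‖F z‖ ≤ C) :
    HX (min (r / 2) (r * ρ / (4 * B))) C fun t => F (f t) := by
  obtain ⟨g, hg, hb, he⟩ := h
  have h00 : g 0 = f 0 := by
    have h1 := he 0 (by rw [abs_zero]; exact hr)
    rwa [Complex.ofReal_zero] at h1
  set r' : ℝ := min (r / 2) (r * ρ / (4 * B)) with hr'
  have hsub1 : ball (0 : ℂ) r' ⊆ ball 0 (r / 2) := ball_subset_ball (min_le_left _ _)
  have hsub2 : ball (0 : ℂ) r' ⊆ ball 0 r :=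
    hsub1.trans (ball_subset_ball (by linarith))
  have hmaps : MapsTo g (ball 0 r') (ball (f 0) ρ) := by
    intro z hz
    have h1 := HX_lip hr hB.le hg hb (hsub1 hz)
    rw [mem_ball, dist_eq_norm, ← h00]
    refine h1.trans_lt ?_
    have h2 : ‖z‖ < r * ρ / (4 * B) := by
      rw [mem_ball_zero_iff] at hz
      exact hz.trans_le (min_le_right _ _)
    have h3 : 0 < 4 * B / r := by positivity
    calc 4 * B / r * ‖z‖ < 4 * B / r * (r * ρ / (4 * B)) := mul_lt_mul_of_pos_left h2 h3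
      _ = ρ := by
        field_simp
  refine ⟨fun z => F (g z), hF.comp (hg.mono hsub2) hmaps, fun z hz => hC _ (hmaps hz),
    fun t ht => ?_⟩
  show F (g t) = F (f t)
  rw [he t (ht.trans_le ((min_le_left _ _).trans (by linarith)))]

end BD36
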