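import Pool.Agent.LibBE36D.D1
import Pool.Agent.LibBE36D.D2
import Pool.Agent.LibBE36D.D3

/-! ROW D4 : the oscillatory integral over the coefficient. SHORT. Cites D1 `contour`, D2 `phase_im`, D3 `HX_cj`.
PLAN. Case `S ≤ deriv f`: the extensions `G'` of `G`, `Φ` of `f`; `phase_im` gives `Im Φ (x + i y) ≥ S / 2 * y`; `contour` with `c = S / 2` (restrict to
`ball 0 2 ⊆ ball 0 r`), the integrands agree on `[0, 1]` (`intervalIntegral.integral_congr`). Case `deriv f ≤ -S`: conjugate the integral (`‖conj z‖ = ‖z‖`, conj of an interval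
integral: `intervalIntegral.integral_conj` or via `Complex.conjCLE`): it has the same form with `conj ∘ G` (`HX_cj false`) and `-f`
(`HX` of `-f`: negate the extension), `deriv (-f) = -deriv f ≥ S`. -/

open MeasureTheory Set Filter Topology Metric

namespace BD36

private theorem core_pos (Mb : ℕ) {G : ℝ → ℂ} {f : ℝ → ℝ} {r B B' S : ℝ} (hr : 4 ≤ r)
    (hG : HX r B G) (hf : HX r B' fun t => ((f t : ℝ) : ℂ)) (hS : 0 < S)
    (hd : ∀ t ∈ Icc (0 : ℝ) 1, S ≤ deriv f t) (hB : 64 * B' / r ^ 2 ≤ S) :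
    ‖∫ t in (0 : ℝ)..1, (((4 * t * (1 - t)) ^ Mb : ℝ) : ℂ) *
        (G t * Complex.exp (Complex.I * ((f t : ℝ) : ℂ)))‖ ≤
      B * (Real.exp (Mb / 144 - S / 48) + (1 / 5) ^ Mb) := by
  obtain ⟨G', hG1, hG2, hG3⟩ := hG
  obtain ⟨Φ, h1, h2, h3⟩ := hf
  have hsub : ball (0 : ℂ) 2 ⊆ ball (0 : ℂ) r := ball_subset_ball (by linarith)
  have key := contour Mb (G := G') (Φ := Φ) (B := B) (c := S / 2) (hG1.mono hsub)
    (h1.mono hsub) (fun z hz => hG2 z (hsub hz)) (by positivity)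
    (phase_im hr h1 h2 h3 hS hd hB)
  have e : (∫ t in (0 : ℝ)..1, (((4 * t * (1 - t)) ^ Mb : ℝ) : ℂ) *
        (G t * Complex.exp (Complex.I * ((f t : ℝ) : ℂ)))) =
      ∫ t in (0 : ℝ)..1, (((4 * t * (1 - t)) ^ Mb : ℝ) : ℂ) *
        (G' t * Complex.exp (Complex.I * Φ t)) := by
    refine intervalIntegral.integral_congr fun t ht => ?_
    rw [uIcc_of_le (zero_le_one' ℝ)] at ht
    have ht' : |t| < r := by
      rw [abs_of_nonneg ht.1]
      linarith [ht.2]
    show (((4 * t * (1 - t)) ^ Mb : ℝ) : ℂ) * (G t * Complex.exp (Complex.I * ((f t : ℝ) : ℂ))) =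
      (((4 * t * (1 - t)) ^ Mb : ℝ) : ℂ) * (G' t * Complex.exp (Complex.I * Φ t))
    rw [hG3 t ht', h3 t ht']
  rw [e]
  have h48 : S / 2 / 24 = S / 48 := by ring
  rw [h48] at key
  exact key

theorem core (Mb : ℕ) {G : ℝ → ℂ} {f : ℝ → ℝ} {r B B' S : ℝ} (hr : 4 ≤ r) (hG : HX r B G)
    (hf : HX r B' fun t => ((f t : ℝ) : ℂ)) (hS : 0 < S)
    (hd : (∀ t ∈ Icc (0 : ℝ) 1, S ≤ deriv f t) ∨ ∀ t ∈ Icc (0 : ℝ) 1, deriv f t ≤ -S)
    (hB : 64 * B' / r ^ 2 ≤ S) :
    ‖∫ t in (0 : ℝ)..1, (((4 * t * (1 - t)) ^ Mb : ℝ) : ℂ) *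
        (G t * Complex.exp (Complex.I * ((f t : ℝ) : ℂ)))‖ ≤
      B * (Real.exp (Mb / 144 - S / 48) + (1 / 5) ^ Mb) := by
  rcases hd with hd | hd
  · exact core_pos Mb hr hG hf hS hd hB
  · have hf' : HX r B' fun t => (((fun s => -f s) t : ℝ) : ℂ) := by
      obtain ⟨Φ, h1, h2, h3⟩ := hf
      refine ⟨fun z => -Φ z, h1.neg, fun z hz => ?_, fun t ht => ?_⟩
      · rw [norm_neg]
        exact h2 z hz
      · show -Φ t = ((-f t : ℝ) : ℂ)
        rw [h3 t ht]
        push_cast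
        rfl
    have hd' : ∀ t ∈ Icc (0 : ℝ) 1, S ≤ deriv (fun s => -f s) t := by
      intro t ht
      rw [deriv.fun_neg]
      linarith [hd t ht]
    have key := core_pos Mb hr (HX_cj false hG) hf' hS hd' hB
    have e : (∫ t in (0 : ℝ)..1, (((4 * t * (1 - t)) ^ Mb : ℝ) : ℂ) *
        (cj false (G t) * Complex.exp (Complex.I * (((fun s => -f s) t : ℝ) : ℂ)))) =
      (starRingEnd ℂ) (∫ t in (0 : ℝ)..1, (((4 * t * (1 - t)) ^ Mb : ℝ) : ℂ) *
        (G t * Complex.exp (Complex.I * ((f t : ℝ) : ℂ)))) := by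
      rw [intervalIntegral.integral_of_le (zero_le_one' ℝ),
        intervalIntegral.integral_of_le (zero_le_one' ℝ), ← integral_conj]
      refine integral_congr_ae (Eventually.of_forall fun t => ?_)
      show (((4 * t * (1 - t)) ^ Mb : ℝ) : ℂ) *
          (cj false (G t) * Complex.exp (Complex.I * ((-f t : ℝ) : ℂ))) =
        (starRingEnd ℂ) ((((4 * t * (1 - t)) ^ Mb : ℝ) : ℂ) *
          (G t * Complex.exp (Complex.I * ((f t : ℝ) : ℂ))))
      rw [map_mul, map_mul, Complex.conj_ofReal, ← Complex.exp_conj, map_mul, Complex.conj_I,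
        Complex.conj_ofReal]
      have h1 : cj false (G t) = (starRingEnd ℂ) (G t) := rfl
      rw [h1]
      congr 3
      push_cast
      ring
    rw [e, RCLike.norm_conj] at key
    exact key

end BD36
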