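import Pool.Agent.LibBE36D.AL
import Pool.Agent.LibBE36D.D3

/-! ROW D6 : the kernel as a holomorphic function of the parameter. MEDIUM. Cites AL `al_ext`, D3 (`HX_comp`, `HX_mul`, `HX_sum`, `HX_mono`),
`ds_low` (LibBE88/V12 or similar: the displacement is at least `r0 > 0` for all `i`, all `|p| ≤ 1`, all `x`, `g ≠ 1`).
PLAN. `PX` gives `A`; `d0 = ds (mm m (s i) 0) x (g • x) ≥ r0` (take `r0 ≤ 1`), `M1 = hM A N (Q i) d0`. `ds` is `HX M1⁻¹ M1`; `HX_comp` with `F = g_j` of `al_ext`,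
`ρ' = min (r0 / 4) (1 / (4 H))`: the ball of radius `ρ'` around `d0` lies in the domain (`re > d0 - r0 / 4`, `|im| < 1/(4H)`), and there `‖g_j z‖ ≤ 12 H τ M0 / √r0 (8 (d0 + 1 + ρ + N + 2))^(2 N + 2)`.
So `al j (ds)` is `HX (min (1/(2 M1)) (ρ' / (4 M1²))) (..)`. Multiply with `UU j` (`HX M1⁻¹ (M1^(j+1))`), sum over `j < N + 1`. All factors are at most powers
`vv C N Q H (d0 + ρ)^(N+1)` for a large `C` (depending on `A`, `r0` only): radius `≥ (vv ..)⁻¹`, bound `≤ vv ..^(N+1) * (τ * M0)`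
(`C * ((N+1) Q H (1 + d0 + ρ)) ≥ 1` dominates `A`, `r0⁻¹`, `12`, `8`, `N + 1`, ..; raise to the power `C`). -/

open MeasureTheory Set Filter Topology Metric
open scoped ContDiff

namespace BD36

open BGS BR BE B35 BE66 B36

variable {Γ : Type} [Group Γ] [MulAction Γ Pl] {D : Set Pl} {ι : Type} {m : Pl → Co}
  {a b : ℝ} {s : ι → ℝ × Pl → ℝ} {Q : ι → ℝ}

private theorem D6_congr {r B : ℝ} {f f' : ℝ → ℂ} (h : HX r B f)
    (hf : ∀ t : ℝ, |t| < r → f t = f' t) : HX r B f' := by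
  obtain ⟨g, hg, hb, hgf⟩ := h
  exact ⟨g, hg, hb, fun t ht => (hgf t ht).trans (hf t ht)⟩

/-- The arithmetic. -/
private theorem D6_arith {A N C : ℕ} {Q H d ρ r0 : ℝ} (hA : 1 ≤ A) (hQ : 1 ≤ Q) (hH : 1 ≤ H)
    (hd : 0 ≤ d) (hρ : 0 ≤ ρ) (hr0 : 0 < r0) (hr1 : r0 ≤ 1)
    (hC : C = 2 * A + 128 + ⌈40 / r0⌉₊) :
    1 ≤ hM A N Q d ∧ hM A N Q d ≤ vv C N Q H (d + ρ) ∧
    16 * hM A N Q d ^ 2 * H / r0 ≤ vv C N Q H (d + ρ) ∧
    ((N : ℝ) + 1) * (hM A N Q d ^ (N + 1) *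
      (40 * H / √r0 * (64 * (N + 1) * (2 + d + ρ)) ^ (2 * N + 2))) ≤
      vv C N Q H (d + ρ) ^ (N + 1) := by
  have hAr : (1 : ℝ) ≤ A := by exact_mod_cast hA
  have hN : (0 : ℝ) ≤ N := Nat.cast_nonneg N
  have hNQ : 1 ≤ ((N : ℝ) + 1) * Q := by nlinarith
  have hNH : 1 ≤ ((N : ℝ) + 1) * H := by nlinarith
  have hNQH : ((N : ℝ) + 1) * Q ≤ ((N : ℝ) + 1) * Q * H := by nlinarith
  have hNHQ : ((N : ℝ) + 1) * H ≤ ((N : ℝ) + 1) * Q * H := by nlinarith
  have hN1 : ((N : ℝ) + 1) ≤ ((N : ℝ) + 1) * Q * H := by nlinarith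
  set X : ℝ := ((N : ℝ) + 1) * Q * H * (1 + (d + ρ)) with hX
  have hs0 : 0 ≤ d + ρ := by linarith
  have hX1 : ((N : ℝ) + 1) * Q * H ≤ X := by
    rw [hX]
    nlinarith
  have hXone : 1 ≤ X := by linarith
  have hX0 : 0 < X := by linarith
  have hC40 : 40 / r0 ≤ (C : ℝ) := by
    have h1 := Nat.le_ceil (40 / r0)
    rw [hC]
    push_cast
    linarith [Nat.cast_nonneg (α := ℝ) A]
  have hC16 : 16 / r0 ≤ (C : ℝ) :=
    (div_le_div_of_nonneg_right (by norm_num) hr0.le).trans hC40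
  have hCA : 2 * (A : ℝ) ≤ C := by
    rw [hC]; push_cast
    linarith [Nat.cast_nonneg (α := ℝ) ⌈40 / r0⌉₊]
  have hC24 : (128 : ℝ) ≤ C := by
    rw [hC]; push_cast
    linarith [Nat.cast_nonneg (α := ℝ) ⌈40 / r0⌉₊, Nat.cast_nonneg (α := ℝ) A]
  have hCXone : 1 ≤ (C : ℝ) * X := by nlinarith
  have hV : vv C N Q H (d + ρ) = ((C : ℝ) * X) ^ C := rfl
  -- the bound for `hM`
  have hb1 : 1 ≤ (A : ℝ) * (((N : ℝ) + 1) * Q * (2 + d)) := by
    have h1 : 1 ≤ ((N : ℝ) + 1) * Q * (2 + d) := by nlinarith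
    nlinarith
  have hM1 : 1 ≤ hM A N Q d := one_le_pow₀ hb1
  have hb2 : (A : ℝ) * (((N : ℝ) + 1) * Q * (2 + d)) ≤ (C : ℝ) * X := by
    have h1 : ((N : ℝ) + 1) * Q * (2 + d) ≤ 2 * X := by
      have h2 : ((N : ℝ) + 1) * Q * (1 + (d + ρ)) ≤ X := by
        rw [hX]
        exact mul_le_mul_of_nonneg_right hNQH (by linarith)
      nlinarith
    calc (A : ℝ) * (((N : ℝ) + 1) * Q * (2 + d)) ≤ A * (2 * X) :=
          mul_le_mul_of_nonneg_left h1 (by linarith)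
      _ = 2 * A * X := by ring
      _ ≤ C * X := mul_le_mul_of_nonneg_right hCA hX0.le
  have hM2 : hM A N Q d ≤ ((C : ℝ) * X) ^ A := pow_le_pow_left₀ (by linarith) hb2 A
  have hM0 : 0 ≤ hM A N Q d := by linarith
  refine ⟨hM1, ?_, ?_, ?_⟩
  · rw [hV]
    exact hM2.trans (pow_le_pow_right₀ hCXone (by omega))
  · rw [hV]
    have h1 : H ≤ C * X := by
      have h2 : H ≤ X := by nlinarith
      nlinarith
    have h2 : 16 / r0 ≤ C * X := by
      have : (C : ℝ) ≤ C * X := by nlinarith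
      linarith
    calc 16 * hM A N Q d ^ 2 * H / r0 = (hM A N Q d ^ 2 * H) * (16 / r0) := by ring
      _ ≤ ((((C : ℝ) * X) ^ A) ^ 2 * (C * X)) * (C * X) := by
          refine mul_le_mul ?_ h2 (by positivity) (by positivity)
          exact mul_le_mul (pow_le_pow_left₀ hM0 hM2 2) h1 (by linarith) (by positivity)
      _ = ((C : ℝ) * X) ^ (2 * A + 2) := by ring
      _ ≤ ((C : ℝ) * X) ^ C := pow_le_pow_right₀ hCXone (by omega)
  · rw [hV]
    have h1 : 64 * (N + 1) * (2 + d + ρ) ≤ C * X := by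
      have h2 : ((N : ℝ) + 1) * (2 + d + ρ) ≤ 2 * X := by
        have h3 : ((N : ℝ) + 1) * (1 + (d + ρ)) ≤ X := by
          rw [hX]
          exact mul_le_mul_of_nonneg_right hN1 (by linarith)
        nlinarith
      nlinarith
    have h80 : 0 ≤ 64 * (N + 1) * (2 + d + ρ) := by positivity
    have h2 : ((N : ℝ) + 1) * (40 * H / √r0) ≤ (C * X) ^ (N + 1) := by
      have h3 : r0 ≤ √r0 := by
        apply Real.le_sqrt_of_sq_le
        nlinarith
      have h4 : 40 * H / √r0 ≤ 40 * H / r0 :=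
        div_le_div_of_nonneg_left (by linarith) hr0 h3
      calc ((N : ℝ) + 1) * (40 * H / √r0) ≤ ((N : ℝ) + 1) * (40 * H / r0) :=
            mul_le_mul_of_nonneg_left h4 (by linarith)
        _ = (((N : ℝ) + 1) * H) * (40 / r0) := by ring
        _ ≤ X * C := by
            refine mul_le_mul (by linarith) ?_ (by positivity) hX0.le
            exact hC40
        _ = C * X := mul_comm _ _
        _ ≤ (C * X) ^ (N + 1) := le_self_pow₀ hCXone (by omega)
    calc ((N : ℝ) + 1) * (hM A N Q d ^ (N + 1) *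
          (40 * H / √r0 * (64 * (N + 1) * (2 + d + ρ)) ^ (2 * N + 2)))
        = (((N : ℝ) + 1) * (40 * H / √r0)) * (hM A N Q d ^ (N + 1) *
            (64 * (N + 1) * (2 + d + ρ)) ^ (2 * N + 2)) := by ring
      _ ≤ (C * X) ^ (N + 1) * ((((C : ℝ) * X) ^ A) ^ (N + 1) * (C * X) ^ (2 * N + 2)) := by
          refine mul_le_mul h2 ?_ (by positivity) (by positivity)
          exact mul_le_mul (pow_le_pow_left₀ hM0 hM2 _) (pow_le_pow_left₀ h80 h1 _)
            (by positivity) (by positivity)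
      _ = (((C : ℝ) * X) ^ (A + 3)) ^ (N + 1) := by
          rw [← pow_mul, ← pow_mul, ← pow_add, ← pow_add]
          congr 1
          ring
      _ ≤ (((C : ℝ) * X) ^ C) ^ (N + 1) := by
          refine pow_le_pow_left₀ (by positivity) ?_ _
          exact pow_le_pow_right₀ hCXone (by omega)

theorem KC_ext (h : CF Γ D m a b s) (hP : PX Γ m s Q) (hQ : ∀ i, 1 ≤ Q i) :
    ∃ C : ℕ, 1 ≤ C ∧ ∀ (i : ι) (x : Pl) (g : Γ) (N : ℕ) (β : ℂ → ℂ) (ρ M0 H η τ V : ℝ), g ≠ 1 →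
      0 ≤ ρ → 0 ≤ M0 → 1 ≤ H → 1 ≤ η → 1 ≤ τ → EA β ρ M0 H η →
      V = vv C N (Q i) H (BR.ds (mm m (s i) 0) x (g • x) + ρ) →
      HX V⁻¹ (V ^ (N + 1) * (τ * M0)) (fun p => B35.KC (mm m (s i) p) N (rst β) τ x (g • x)) ∧
      HX V⁻¹ V (fun p => ((BR.ds (mm m (s i) p) x (g • x) : ℝ) : ℂ)) ∧
      HX V⁻¹ 3 (fun p => Complex.exp (((s i (p, x) - s i (0, x) : ℝ)) : ℂ)) := by
  obtain ⟨A, hA, hPX⟩ := hP
  obtain ⟨c, hc, hlow⟩ := ds_low h
  set r0 : ℝ := min c 1 with hr0d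
  have hr0 : 0 < r0 := lt_min hc zero_lt_one
  have hr1 : r0 ≤ 1 := min_le_right _ _
  refine ⟨2 * A + 128 + ⌈40 / r0⌉₊, by omega, ?_⟩
  intro i x g N β ρ M0 H η τ V hg hρ hM0 hH hη hτ hβ hV
  set d0 : ℝ := BR.ds (mm m (s i) 0) x (g • x) with hd0
  set M1 : ℝ := hM A N (Q i) d0 with hM1d
  obtain ⟨p1, p2, p3⟩ := hPX i x g N M1 hg rfl
  have hlow' : ∀ p : ℝ, |p| ≤ 1 → r0 ≤ BR.ds (mm m (s i) p) x (g • x) := fun p hp =>
    (min_le_left _ _).trans (hlow i p (by rwa [Real.norm_eq_abs]) x g hg)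
  have hdr : r0 ≤ d0 := hlow' 0 (by simp)
  obtain ⟨a1, a2, a3, a4⟩ := D6_arith (N := N) hA (hQ i) hH (hr0.le.trans hdr) hρ hr0 hr1 rfl
  rw [← hV] at a2 a3 a4
  rw [← hM1d] at a1 a2 a3 a4
  have hM1 : 0 < M1 := by linarith
  have hV0 : 0 < V := by linarith
  have hVM : V⁻¹ ≤ M1⁻¹ := inv_anti₀ hM1 a2
  have hV4 : 16 * M1 ^ 2 ≤ V := by
    refine le_trans ?_ a3
    rw [le_div_iff₀ hr0]
    have h1 : 0 ≤ 16 * M1 ^ 2 := by positivity
    calc 16 * M1 ^ 2 * r0 ≤ 16 * M1 ^ 2 * 1 := mul_le_mul_of_nonneg_left hr1 h1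
      _ ≤ 16 * M1 ^ 2 * H := mul_le_mul_of_nonneg_left hH h1
  have hV1 : 1 ≤ V := by nlinarith
  have hVi1 : V⁻¹ ≤ 1 := inv_le_one_of_one_le₀ hV1
  refine ⟨?_, HX_mono p1 hVM a2, ?_⟩
  · -- the kernel
    set ρ' : ℝ := min (r0 / 4) (1 / (4 * H)) with hρ'
    have hρ'0 : 0 < ρ' := lt_min (by linarith) (by positivity)
    have hρ'1 : ρ' ≤ 1 / 4 := (min_le_left _ _).trans (by linarith)
    have hρ'2 : r0 / (4 * H) ≤ ρ' := by
      refine le_min ?_ ?_
      · exact div_le_div_of_nonneg_left hr0.le (by norm_num) (by linarith)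
      · exact div_le_div_of_nonneg_right hr1 (by positivity)
    have hrad : V⁻¹ ≤ min (M1⁻¹ / 2) (M1⁻¹ * ρ' / (4 * M1)) := by
      refine le_min ?_ ?_
      · have h1 : 2 * M1 ≤ V := by nlinarith
        calc V⁻¹ ≤ (2 * M1)⁻¹ := inv_anti₀ (by positivity) h1
          _ = M1⁻¹ / 2 := by
              rw [mul_inv]
              ring
      · calc V⁻¹ ≤ (16 * M1 ^ 2 * H / r0)⁻¹ := inv_anti₀ (by positivity) a3
          _ = M1⁻¹ * (r0 / (4 * H)) / (4 * M1) := by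
              field_simp
              ring
          _ ≤ M1⁻¹ * ρ' / (4 * M1) := by
              refine div_le_div_of_nonneg_right ?_ (by positivity)
              exact mul_le_mul_of_nonneg_left hρ'2 (by positivity)
    set B0 : ℝ := M1 ^ (N + 1) *
      ((40 * H / √r0 * (64 * (N + 1) * (2 + d0 + ρ)) ^ (2 * N + 2)) * (τ * M0)) with hB0
    have hterm : ∀ j ∈ Finset.range (N + 1), HX V⁻¹ B0 (fun p =>
        ((UU (Gx (mm m (s i) p) x) j (Vx (mm m (s i) p) x (g • x)) : ℝ) : ℂ) *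
          B35.al j (rst β) τ (BR.ds (mm m (s i) p) x (g • x))) := by
      intro j hj
      have hjN : j ≤ N := Nat.lt_succ_iff.1 (Finset.mem_range.1 hj)
      have hjNr : (j : ℝ) ≤ N := by exact_mod_cast hjN
      obtain ⟨gj, hgd, hgr, hgb⟩ := al_ext hβ hρ hM0 hH hη hr0 hr1 hτ j
      have hsub : ∀ z ∈ ball ((d0 : ℝ) : ℂ) ρ', r0 / 2 < z.re ∧ |z.im| < 1 / (4 * H) ∧
          ‖z‖ ≤ d0 + 1 := by
        intro z hz
        rw [mem_ball, dist_eq_norm] at hz
        have h1 : |(z - (d0 : ℂ)).re| ≤ ‖z - (d0 : ℂ)‖ := Complex.abs_re_le_norm _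
        have h2 : |(z - (d0 : ℂ)).im| ≤ ‖z - (d0 : ℂ)‖ := Complex.abs_im_le_norm _
        rw [Complex.sub_re, Complex.ofReal_re] at h1
        rw [Complex.sub_im, Complex.ofReal_im, sub_zero] at h2
        have h3 : ρ' ≤ r0 / 4 := min_le_left _ _
        have h4 : ρ' ≤ 1 / (4 * H) := min_le_right _ _
        refine ⟨?_, ?_, ?_⟩
        · have h5 := (abs_le.1 h1).1
          linarith
        · linarith
        · have h5 : ‖z‖ ≤ ‖(d0 : ℂ)‖ + ‖z - (d0 : ℂ)‖ := by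
            calc ‖z‖ = ‖(d0 : ℂ) + (z - (d0 : ℂ))‖ := by
                  congr 1
                  ring
              _ ≤ _ := norm_add_le _ _
          rw [Complex.norm_real, Real.norm_of_nonneg (by linarith)] at h5
          linarith
      have hcomp := HX_comp (r := M1⁻¹) (B := M1) (ρ := ρ')
        (C := 40 * H * τ * M0 / √r0 * (64 * (N + 1) * (2 + d0 + ρ)) ^ (2 * N + 2))
        (inv_pos.2 hM1) hρ'0 hM1 p1 (F := gj)
        (hgd.mono fun z hz => ⟨(hsub z hz).1, (hsub z hz).2.1⟩) (fun z hz => by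
          obtain ⟨h1, h2, h3⟩ := hsub z hz
          refine (hgb z h1 h2).trans ?_
          refine mul_le_mul_of_nonneg_left ?_ (by positivity)
          have h0N : (0 : ℝ) ≤ N := Nat.cast_nonneg N
          have hz0 := norm_nonneg z
          have hj0 : (0 : ℝ) ≤ j := Nat.cast_nonneg j
          have h4 : 64 * ((j : ℝ) + 1) * (1 + ρ + ‖z‖) ≤ 64 * (N + 1) * (2 + d0 + ρ) :=
            mul_le_mul (by linarith) (by linarith) (by linarith) (by linarith)
          have h5 : 0 ≤ 64 * ((j : ℝ) + 1) * (1 + ρ + ‖z‖) := by positivity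
          have h6 : 1 ≤ 64 * ((N : ℝ) + 1) * (2 + d0 + ρ) := by
            have hd00 : 0 ≤ d0 := hr0.le.trans hdr
            have : 1 ≤ ((N : ℝ) + 1) * (2 + d0 + ρ) := by nlinarith
            nlinarith
          exact (pow_le_pow_left₀ h5 h4 _).trans (pow_le_pow_right₀ h6 (by omega)))
      have hal := HX_mono hcomp hrad le_rfl
      have hal' : HX V⁻¹ (40 * H * τ * M0 / √r0 *
          (64 * (N + 1) * (2 + d0 + ρ)) ^ (2 * N + 2))
          (fun p => B35.al j (rst β) τ (BR.ds (mm m (s i) p) x (g • x))) := by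
        refine D6_congr hal fun t ht => ?_
        refine hgr _ ?_
        have h1 := hlow' t (ht.le.trans hVi1)
        linarith
      have hmul := HX_mul (HX_mono (p2 j hjN) hVM le_rfl) hal'
      refine HX_mono hmul le_rfl ?_
      rw [hB0]
      have e : 40 * H * τ * M0 / √r0 * (64 * (N + 1) * (2 + d0 + ρ)) ^ (2 * N + 2) =
          (40 * H / √r0 * (64 * (N + 1) * (2 + d0 + ρ)) ^ (2 * N + 2)) * (τ * M0) := by ring
      rw [e]
      refine mul_le_mul_of_nonneg_right (pow_le_pow_right₀ a1 (by omega)) ?_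
      have : 0 ≤ d0 := hr0.le.trans hdr
      positivity
    have hsum := HX_sum (Finset.range (N + 1)) hterm
    refine HX_mono hsum le_rfl ?_
    rw [Finset.sum_const, Finset.card_range, nsmul_eq_mul, hB0]
    have h1 : 0 ≤ τ * M0 := mul_nonneg (by linarith) hM0
    calc ((N + 1 : ℕ) : ℝ) * (M1 ^ (N + 1) *
          ((40 * H / √r0 * (64 * (N + 1) * (2 + d0 + ρ)) ^ (2 * N + 2)) * (τ * M0)))
        = (((N : ℝ) + 1) * (M1 ^ (N + 1) *
          (40 * H / √r0 * (64 * (N + 1) * (2 + d0 + ρ)) ^ (2 * N + 2)))) * (τ * M0) := by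
          push_cast
          ring
      _ ≤ V ^ (N + 1) * (τ * M0) := mul_le_mul_of_nonneg_right a4 h1
  · -- the exponent
    obtain ⟨g3, hg3, hb3, he3⟩ := p3
    have hMi : 0 < M1⁻¹ := inv_pos.2 hM1
    have hball : ball (0 : ℂ) V⁻¹ ⊆ ball 0 M1⁻¹ := ball_subset_ball hVM
    refine ⟨fun z => Complex.exp (g3 z - g3 0), ?_, ?_, ?_⟩
    · exact ((hg3.mono hball).sub_const _).cexp
    · intro z hz
      have hz' : z ∈ ball (0 : ℂ) (M1⁻¹ / 2) := by
        refine ball_subset_ball ?_ hz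
        have h1 : 2 * M1 ≤ V := by nlinarith
        calc V⁻¹ ≤ (2 * M1)⁻¹ := inv_anti₀ (by positivity) h1
          _ = M1⁻¹ / 2 := by
              rw [mul_inv]
              ring
      have h1 := HX_lip hMi hM1.le hg3 hb3 hz'
      rw [mem_ball_zero_iff] at hz
      have h2 : 4 * M1 / M1⁻¹ * ‖z‖ ≤ 1 := by
        have h3 : 4 * M1 / M1⁻¹ = 4 * M1 ^ 2 := by
          rw [div_inv_eq_mul]
          ring
        rw [h3]
        calc 4 * M1 ^ 2 * ‖z‖ ≤ V * V⁻¹ := by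
              refine mul_le_mul ?_ hz.le (norm_nonneg _) hV0.le
              nlinarith
          _ = 1 := mul_inv_cancel₀ hV0.ne'
      rw [Complex.norm_exp]
      have h4 : (g3 z - g3 0).re ≤ 1 :=
        (Complex.re_le_norm _).trans (h1.trans h2)
      have h5 := Real.exp_le_exp.2 h4
      have h6 := Real.exp_one_lt_d9
      linarith
    · intro t ht
      have h1 := he3 t (ht.trans_le hVM)
      have h2 := he3 0 (by rw [abs_zero]; exact hMi)
      rw [Complex.ofReal_zero] at h2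
      simp only
      rw [h1, h2, Complex.ofReal_sub]

end BD36
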