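import Pool.Agent.LibBE36D.D6
import Pool.Agent.LibBE36D.D5

/-! ROW D7 : the amplitude at a point of the strip as a holomorphic function of the coefficient. MEDIUM. Cites D6, D5 `disp`, LibBE66/F3 (`F3_jac`, `F3_JA`).
PLAN. `AA` of LibBE66/Defs is `KC * density`; as in `F3_jac` (restated for `DG`: the proof uses only `h.cf0`, `h.cf.hm`, `F3_dt`) the density
`√(dt (mm m (s i) p x)) * |det|` at `x = Fm m0 x0 v0 q` equals `exp (s i (p, x) - s0 i (0, x)) * JA m0 z.1 (rot z.2) q.2`, `z = gfl m0 q.1 (x0, v0)`, and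
`exp (s i (p, x) - s0 i (0, x)) = exp (s i (p, x) - s i (0, x)) * exp (s i (0, x) - s0 i (0, x))` with the second factor `≤ exp (e i) ≤ 3` (`h.near` with `t = 0`, `v * 0 = 0`); `1 ≤ JA ≤ C` (`F3_JA h.cf0`,
`|q.2| ≤ 2`). `ds (mm m (s i) 0) x (g • x) ≤ 2 l + 8 ≤ 2 ρ + 8` (`disp` with `t = 0`), so the `V` of D6 is at most `vv C' N Q H ρ`
(`1 + d0 + ρ ≤ 9 (1 + ρ)`, monotone in `C`). `HX_mul`, `HX_const`, `HX_scale` (`p = v t`, radius `/ v`). The displacement: the same with `HX V⁻¹ V`. -/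

open MeasureTheory Set Filter Topology Metric
open scoped ContDiff

namespace BD36

open BGS BR BE B35 BE66 B36

variable {Γ : Type} [Group Γ] [MulAction Γ Pl] {D : Set Pl} {ι : Type} {m : Pl → Co}
  {a b b0 : ℝ} {L0 : ℕ} {s s0 : ι → ℝ × Pl → ℝ} {nn : ι → ℕ} {pc : ι → ℤ × ℤ} {w v e : ι → ℝ}
  {Q : ι → ℝ}

private theorem D7_dt (c : ℝ) (hc : 0 ≤ c) (w : Co) : √(dt (c • w)) = c * √(dt w) := by
  have h : dt (c • w) = c ^ 2 * dt w := by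
    simp only [dt, Prod.smul_fst, Prod.smul_snd, smul_eq_mul]
    ring
  rw [h, Real.sqrt_mul (sq_nonneg c), Real.sqrt_sq hc]

private theorem D7_rot {u : Pl} (hu : eu u = 1) : eu (rot u) = 1 := by
  rw [← hu]
  simp [eu, rot, add_comm]

private theorem D7_jac (h : DG Γ D m a b b0 L0 s s0 nn pc w v e) (i : ι) (t : ℝ) {x0 v0 : Pl}
    (hv : eu v0 = 1) (p : Pl) {z : Pl × Pl} (hz : z = gfl (mm m (s0 i) 0) p.1 (x0, v0)) :
    √(dt (mm m (s i) t (Fm (mm m (s0 i) 0) x0 v0 p))) *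
        |(fderiv ℝ (Fm (mm m (s0 i) 0) x0 v0) p).det| =
      Real.exp (s i (t, Fm (mm m (s0 i) 0) x0 v0 p) - s0 i (0, Fm (mm m (s0 i) 0) x0 v0 p)) *
        JA (mm m (s0 i) 0) z.1 (rot z.2) p.2 := by
  have hm := hm_mm h.cf0 i 0
  have hX := h.cf0.hX
  have h1 := Fm_det hX hm hv p hz
  have hu : eu (rot z.2) = 1 := by
    apply D7_rot
    rw [hz, gfl_eu hX hm]
    exact hv
  have h3 : 1 ≤ JA (mm m (s0 i) 0) z.1 (rot z.2) p.2 := JA_ge hX hm hu p.2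
  set x := Fm (mm m (s0 i) 0) x0 v0 p with hx
  set d := (fderiv ℝ (Fm (mm m (s0 i) 0) x0 v0) p).det with hd
  have h4 : √(dt (mm m (s0 i) 0 x)) = Real.exp (s0 i (0, x)) * √(dt (m x)) :=
    D7_dt _ (Real.exp_pos _).le _
  have h5 : √(dt (mm m (s i) t x)) = Real.exp (s i (t, x)) * √(dt (m x)) :=
    D7_dt _ (Real.exp_pos _).le _
  have h6 : 0 < √(dt (mm m (s0 i) 0 x)) := Real.sqrt_pos.2 (hm.pos x).2
  have h7 : 0 < d := by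
    by_contra h8
    push Not at h8
    have := mul_nonpos_of_nonneg_of_nonpos h6.le h8
    linarith
  rw [abs_of_pos h7, h5, ← h1, h4, Real.exp_sub]
  have h9 : Real.exp (s0 i (0, x)) ≠ 0 := (Real.exp_pos _).ne'
  field_simp

private theorem D7_vv {C1 C N : ℕ} {Q H ρ d c : ℝ} (hC1 : 1 ≤ C1) (hQ : 1 ≤ Q) (hH : 1 ≤ H)
    (hρ : 1 ≤ ρ) (hd0 : 0 ≤ d) (hd : d ≤ 2 * ρ + 8) (hC : 9 * C1 ≤ C) (hc : 0 ≤ c)
    (hcC : c ≤ C) : 1 ≤ vv C1 N Q H (d + ρ) ∧ vv C1 N Q H (d + ρ) * c ≤ vv C N Q H ρ := by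
  have hN : (1 : ℝ) ≤ (N : ℝ) + 1 := by
    have : (0 : ℝ) ≤ N := Nat.cast_nonneg N
    linarith
  have hC1' : (1 : ℝ) ≤ C1 := by exact_mod_cast hC1
  have hC' : 9 * (C1 : ℝ) ≤ C := by exact_mod_cast hC
  obtain ⟨Y, hY⟩ : ∃ Y : ℝ, Y = ((N : ℝ) + 1) * Q * H := ⟨_, rfl⟩
  have hY1 : 1 ≤ Y := by
    rw [hY]
    have h1 : 1 ≤ ((N : ℝ) + 1) * Q := by nlinarith
    nlinarith
  have hX1 : 1 ≤ Y * (1 + (d + ρ)) := by nlinarith
  have hX2 : Y * (1 + (d + ρ)) ≤ 9 * (Y * (1 + ρ)) := by nlinarith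
  have hX3 : 1 ≤ Y * (1 + ρ) := by nlinarith
  have hb1 : 1 ≤ (C1 : ℝ) * (Y * (1 + (d + ρ))) := by nlinarith
  have hb2 : (C1 : ℝ) * (Y * (1 + (d + ρ))) ≤ (C : ℝ) * (Y * (1 + ρ)) := by
    calc (C1 : ℝ) * (Y * (1 + (d + ρ))) ≤ (C1 : ℝ) * (9 * (Y * (1 + ρ))) :=
          mul_le_mul_of_nonneg_left hX2 (by linarith)
      _ = 9 * (C1 : ℝ) * (Y * (1 + ρ)) := by ring
      _ ≤ (C : ℝ) * (Y * (1 + ρ)) := mul_le_mul_of_nonneg_right hC' (by linarith)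
  have hb3 : c ≤ (C : ℝ) * (Y * (1 + ρ)) := by
    have h1 : (0 : ℝ) ≤ C := Nat.cast_nonneg C
    nlinarith
  unfold vv
  rw [← hY]
  refine ⟨one_le_pow₀ hb1, ?_⟩
  have hb4 : 1 ≤ (C : ℝ) * (Y * (1 + ρ)) := hb1.trans hb2
  calc ((C1 : ℝ) * (Y * (1 + (d + ρ)))) ^ C1 * c
      ≤ ((C : ℝ) * (Y * (1 + ρ))) ^ C1 * ((C : ℝ) * (Y * (1 + ρ))) := by
        refine mul_le_mul (pow_le_pow_left₀ (by linarith) hb2 C1) hb3 hc (by positivity)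
    _ = ((C : ℝ) * (Y * (1 + ρ))) ^ (C1 + 1) := (pow_succ _ _).symm
    _ ≤ ((C : ℝ) * (Y * (1 + ρ))) ^ C := pow_le_pow_right₀ hb4 (by omega)

theorem AA_ext (h : DG Γ D m a b b0 L0 s s0 nn pc w v e) (hP : PX Γ m s Q) (hQ : ∀ i, 1 ≤ Q i) :
    ∃ C : ℕ, 1 ≤ C ∧ ∀ (i : ι) (g : Γ) (x0 v0 : Pl) (l : ℝ), Axis (mm m (s0 i) 0) g x0 v0 l →
      ∀ (N : ℕ) (β : ℂ → ℂ) (ρ M0 H η τ V : ℝ), l ≤ ρ → 1 ≤ ρ → 0 ≤ M0 → 1 ≤ H → 1 ≤ η → 1 ≤ τ →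
      EA β ρ M0 H η → V = vv C N (Q i) H ρ → ∀ (q x : Pl), |q.2| ≤ 2 →
      x = Fm (mm m (s0 i) 0) x0 v0 q →
      HX (V⁻¹ / v i) (V ^ (N + 1) * (τ * M0)) (fun t =>
        AA (mm m (s0 i) 0) (mm m (s i) (v i * t)) N (rst β) τ g x0 v0 q) ∧
      HX (V⁻¹ / v i) V (fun t => ((BR.ds (mm m (s i) (v i * t)) x (g • x) : ℝ) : ℂ)) := by
  obtain ⟨C1, hC1, hK⟩ := KC_ext h.cf hP hQ
  obtain ⟨C2, hC2, hJ⟩ := F3_JA h.cf0
  refine ⟨9 * C1 + ⌈9 * C2⌉₊, by omega, ?_⟩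
  intro i g x0 v0 l hA N β ρ M0 H η τ V hl hρ hM0 hH hη hτ hE hV q x hq hx
  have hm := hm_mm h.cf0 i 0
  have hg : g ≠ 1 := (Axis_ne h.cf0.hX h.cf0.hO hm hA).1
  have hv := (h.v_mem i).1
  have hd0 : 0 ≤ BR.ds (mm m (s i) 0) x (g • x) := by
    unfold BR.ds eu
    exact Real.sqrt_nonneg _
  have hd : BR.ds (mm m (s i) 0) x (g • x) ≤ 2 * ρ + 8 := by
    have h1 := disp h i (t := 0) (left_mem_Icc.2 zero_le_one) hA (u := q.1) (y := q.2) hq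
    rw [mul_zero] at h1
    have h2 : x = Fm (mm m (s0 i) 0) x0 v0 (q.1, q.2) := hx
    rw [← h2] at h1
    linarith
  obtain ⟨hKC, hds, hexp⟩ := hK i x g N β ρ M0 H η τ _ hg (by linarith) hM0 hH hη hτ hE rfl
  have hcC : 9 * C2 ≤ ((9 * C1 + ⌈9 * C2⌉₊ : ℕ) : ℝ) := by
    push_cast
    have h1 := Nat.le_ceil (9 * C2)
    have h2 : (0 : ℝ) ≤ C1 := Nat.cast_nonneg C1
    linarith
  obtain ⟨hV1, hVV⟩ := D7_vv (N := N) (Q := Q i) (H := H) (C := 9 * C1 + ⌈9 * C2⌉₊) hC1 (hQ i) hH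
    hρ hd0 hd (by omega) (by linarith : (0 : ℝ) ≤ 9 * C2) hcC
  rw [← hV] at hVV
  obtain ⟨V1, hV1d⟩ : ∃ V1 : ℝ, V1 = vv C1 N (Q i) H (BR.ds (mm m (s i) 0) x (g • x) + ρ) :=
    ⟨_, rfl⟩
  rw [← hV1d] at hV1 hVV hKC hds hexp
  have hV1V : V1 ≤ V := by nlinarith
  have hV0 : 0 < V1 := by linarith
  have hrad : V⁻¹ / v i ≤ V1⁻¹ / v i :=
    div_le_div_of_nonneg_right (inv_anti₀ hV0 hV1V) hv.le
  constructor
  · obtain ⟨z, hz⟩ : ∃ z : Pl × Pl, z = gfl (mm m (s0 i) 0) q.1 (x0, v0) := ⟨_, rfl⟩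
    obtain ⟨K0, hK0⟩ : ∃ K0 : ℝ, K0 = Real.exp (s i (0, x) - s0 i (0, x)) *
      JA (mm m (s0 i) 0) z.1 (rot z.2) q.2 := ⟨_, rfl⟩
    have hu : eu (rot z.2) = 1 := by
      apply D7_rot
      rw [hz, gfl_eu h.cf0.hX hm]
      exact hA.unit
    obtain ⟨hJ1, hJ2⟩ := hJ i z.1 (rot z.2) hu q.2 hq
    have hexp3 : Real.exp (s i (0, x) - s0 i (0, x)) ≤ 3 := by
      have h1 := h.near i 0 (left_mem_Icc.2 zero_le_one) x
      rw [mul_zero] at h1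
      have h2 : s i (0, x) - s0 i (0, x) ≤ 1 := ((le_abs_self _).trans h1).trans (h.e_mem i).2
      have h3 := Real.exp_le_exp.2 h2
      have h4 := Real.exp_one_lt_d9
      linarith
    have hK1 : ‖(K0 : ℂ)‖ ≤ 3 * C2 := by
      rw [Complex.norm_real, Real.norm_eq_abs, hK0, abs_of_nonneg
        (mul_nonneg (Real.exp_pos _).le (by linarith))]
      exact mul_le_mul hexp3 hJ2 (by linarith) (by norm_num)
    have hprod := HX_scale hv (HX_mul hKC (HX_mul hexp (HX_const V1⁻¹ (K0 : ℂ))))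
    have hfun : (fun t : ℝ => AA (mm m (s0 i) 0) (mm m (s i) (v i * t)) N (rst β) τ g x0 v0 q) =
        fun t : ℝ => B35.KC (mm m (s i) (v i * t)) N (rst β) τ x (g • x) *
          (Complex.exp (((s i (v i * t, x) - s i (0, x) : ℝ)) : ℂ) * (K0 : ℂ)) := by
      funext t
      unfold AA
      rw [D7_jac h i (v i * t) hA.unit q hz, ← hx]
      congr 1
      rw [hK0, ← Complex.ofReal_exp, ← Complex.ofReal_mul, ← mul_assoc, ← Real.exp_add]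
      congr 3
      ring
    rw [hfun]
    refine HX_mono hprod hrad ?_
    have h1 : (V1 * (9 * C2)) ^ (N + 1) ≤ V ^ (N + 1) :=
      pow_le_pow_left₀ (by positivity) hVV _
    have h2 : 9 * C2 ≤ (9 * C2) ^ (N + 1) := by
      calc 9 * C2 = (9 * C2) ^ 1 := (pow_one _).symm
        _ ≤ (9 * C2) ^ (N + 1) := pow_le_pow_right₀ (by linarith) (by omega)
    have h3 : V1 ^ (N + 1) * (9 * C2) ≤ V ^ (N + 1) := by
      calc V1 ^ (N + 1) * (9 * C2) ≤ V1 ^ (N + 1) * (9 * C2) ^ (N + 1) :=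
            mul_le_mul_of_nonneg_left h2 (by positivity)
        _ = (V1 * (9 * C2)) ^ (N + 1) := (mul_pow _ _ _).symm
        _ ≤ V ^ (N + 1) := h1
    have h4 : 0 ≤ τ * M0 := mul_nonneg (by linarith) hM0
    have h5 : 0 ≤ V1 ^ (N + 1) := by positivity
    calc V1 ^ (N + 1) * (τ * M0) * (3 * ‖(K0 : ℂ)‖)
        ≤ V1 ^ (N + 1) * (τ * M0) * (3 * (3 * C2)) := by
          refine mul_le_mul_of_nonneg_left ?_ (mul_nonneg h5 h4)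
          linarith
      _ = V1 ^ (N + 1) * (9 * C2) * (τ * M0) := by ring
      _ ≤ V ^ (N + 1) * (τ * M0) := mul_le_mul_of_nonneg_right h3 h4
  · exact HX_mono (HX_scale hv hds) hrad hV1V

end BD36
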