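import Pool.Agent.LibBE36D.D7
import Pool.Agent.LibBE36D.D4
import Pool.Agent.LibBE66.I1

/-! ROW D8 : the integral over the coefficient for fixed points. MEDIUM. Template: LibBE66/I1 `inner`. Cites D4 `core`, D5 `der`, D7 `AA_ext`, `I1_small`, `N2_phase`, `I1_der`, `I1_le`.
PLAN. `cj (ep j) (θ(y_j) GG ..) = θ(y_j) * cj (ep j) (AA ..) * exp (I (-(sgn ep τ ds)))` (as `I1_FF`, `N2_phase` with `c = θ`), so the product over `j` is `Θ * G t * exp (I f t)` with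
`|Θ| ≤ 1`, `G t = ∏ cj (ep j) (AA j t)` : `HX (V⁻¹ / v) ((V^(N+1) * (Λ1 T M0))^card J)` (`HX_prod`, `HX_cj` with `B35.cj = BD36.cj` by `rfl`, monotone in `τ ≤ Λ1 T`),
`f t = -∑ sgn τ_j ds_j t`: `HX (V⁻¹ / v) (card J * (Λ1 T V))` (real linear combination: `HX_sum`, `HX_mul`, `HX_const`; the real function as a complex one: `Complex.ofReal_sum`). Radius: `V⁻¹ / v ≥ 4`
from `hv1`. Derivative (differentiable: `ds_smooth` for `cf_scale`): by `der`, `|deriv f t + (w T / 2) S0| ≤ card J * Λ1 T * C w (1+ρ)² (..)` with `S0 = ∑ sgn (τ_j/T) pint_j`, `|S0| ≥ n^(-3/2)`; by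
`I1_small` the error is at most half: so `deriv f` has constant sign and modulus `≥ S = w T n^(-3/2) / 4`. `64 B' / r² = 64 card J Λ1 T V V² v² ≤ S` from `hv2` (`n^(-3/2) ≥ n^(-2)`). `core`. Choose `C`
large (all constants of D5, D7, `Λ1`, `card J`). The factor `Θ` is a constant. -/

open MeasureTheory Set Filter Topology Metric
open scoped ContDiff

namespace BD36

open BGS BR BE B35 BE66 B36

variable {Γ : Type} [Group Γ] [MulAction Γ Pl] {D : Set Pl} {ι : Type} {m : Pl → Co}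
  {a b b0 : ℝ} {L0 : ℕ} {s s0 : ι → ℝ × Pl → ℝ} {nn : ι → ℕ} {pc : ι → ℤ × ℤ} {w v e : ι → ℝ}
  {Q : ι → ℝ}

private theorem D8_vv {C C7 N : ℕ} {K Q H ρ : ℝ} (h1 : 3 * C7 + 1 ≤ C) (h2 : K ≤ C)
    (hC7 : 1 ≤ C7) (hQ : 1 ≤ Q) (hH : 1 ≤ H) (hρ : 0 ≤ ρ) :
    1 ≤ vv C7 N Q H ρ ∧ K * vv C7 N Q H ρ ^ 3 ≤ vv C N Q H ρ := by
  unfold vv
  have hN : (1 : ℝ) ≤ N + 1 := by
    have : (0 : ℝ) ≤ N := Nat.cast_nonneg _
    linarith
  have hX1 : (1 : ℝ) ≤ (N + 1) * Q := by nlinarith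
  have hX2 : (1 : ℝ) ≤ (N + 1) * Q * H := by nlinarith
  have hX : (1 : ℝ) ≤ (N + 1) * Q * H * (1 + ρ) := by nlinarith
  set X : ℝ := (N + 1) * Q * H * (1 + ρ) with hXd
  have h7 : (1 : ℝ) ≤ C7 := by exact_mod_cast hC7
  have h7C : (C7 : ℝ) ≤ C := by exact_mod_cast (by omega)
  have hC1 : (1 : ℝ) ≤ C := h7.trans h7C
  have h7X : (1 : ℝ) ≤ C7 * X := by nlinarith
  have hCX : (C : ℝ) ≤ C * X := by nlinarith
  have hCX1 : (1 : ℝ) ≤ C * X := hC1.trans hCX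
  refine ⟨one_le_pow₀ h7X, ?_⟩
  obtain ⟨k, hk⟩ : ∃ k, C = C7 * 3 + (k + 1) := ⟨C - (C7 * 3 + 1), by omega⟩
  have e1 : ((C : ℝ) * X) ^ C = (C * X) ^ (C7 * 3) * ((C * X) ^ k * (C * X)) := by
    rw [← pow_succ, ← pow_add, ← hk]
  rw [e1, ← pow_mul, mul_comm]
  have h3 : ((C7 : ℝ) * X) ^ (C7 * 3) ≤ (C * X) ^ (C7 * 3) := by
    have hX0 : 0 ≤ X := by linarith
    gcongr
  have h4 : (1 : ℝ) ≤ (C * X) ^ k := one_le_pow₀ hCX1
  have h5 : K ≤ (C * X) ^ k * (C * X) := by nlinarith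
  have h6 : (0 : ℝ) ≤ (C7 * X) ^ (C7 * 3) := by positivity
  have h8 : (0 : ℝ) ≤ (C * X) ^ k * (C * X) := by positivity
  exact (mul_le_mul_of_nonneg_left h5 h6).trans (mul_le_mul_of_nonneg_right h3 h8)

private theorem D8_GG (m0 m1 : Pl → Co) (θ : ℝ) (N : ℕ) (β : ℝ → ℂ) (τ : ℝ) (ep : Bool) (g : Γ)
    (x0 v0 p : Pl) : B35.cj ep (((θ : ℝ) : ℂ) * GG m0 m1 N β τ g x0 v0 p) =
      ((θ : ℝ) : ℂ) * B35.cj ep (AA m0 m1 N β τ g x0 v0 p) *
        Complex.exp (Complex.I *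
          (-(sgn ep * τ * BR.ds m1 (Fm m0 x0 v0 p) (g • Fm m0 x0 v0 p)) : ℝ)) := by
  rw [← N2_phase]
  congr 1
  unfold GG AA B35.KE
  ring

private theorem D8_S {w T n1 S0 A B : ℝ} (hw : 0 < w) (hT : 0 < T)
    (hlow : n1 ≤ |S0|) (hA : |A - w / 2 * (T * S0)| ≤ B) (hB : B ≤ w * T * n1 / 4) :
    (0 ≤ S0 → w * T * n1 / 4 ≤ A) ∧ (S0 < 0 → A ≤ -(w * T * n1 / 4)) := by
  have h1 := abs_le.1 (hA.trans hB)
  have hwT : 0 < w * T := mul_pos hw hT
  constructor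
  · intro h
    rw [abs_of_nonneg h] at hlow
    have h2 := mul_le_mul_of_nonneg_left hlow hwT.le
    nlinarith [h1.1]
  · intro h
    rw [abs_of_neg h] at hlow
    have h2 := mul_le_mul_of_nonneg_left hlow hwT.le
    nlinarith [h1.2]

theorem inner (h : DG Γ D m a b b0 L0 s s0 nn pc w v e) (hP : PX Γ m s Q) (hQ : ∀ i, 1 ≤ Q i)
    (J : Type) [Fintype J] {Λ1 : ℝ} (hΛ : 1 ≤ Λ1) :
    ∃ C : ℕ, 1 ≤ C ∧ ∀ (i : ι) (N Mb : ℕ) (T ρ δ M0 H η V : ℝ), 1 ≤ T → 1 ≤ ρ → 0 < δ → δ ≤ 1 →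
      0 ≤ M0 → 1 ≤ H → 1 ≤ η → V = vv C N (Q i) H ρ → V * v i ≤ 1 →
      V * v i ^ 2 * ((nn i : ℝ) + 1) ^ 2 ≤ w i →
      C * (1 + ρ) ^ 2 * ((nn i : ℝ) + 1) ^ 3 * (√(e i) + δ) ≤ 1 →
      C * (1 + ρ) ^ 2 ≤ √((nn i : ℝ) + 1) →
      ∀ (β : J → ℂ → ℂ) (τ : J → ℝ) (ep : J → Bool) (g : J → Γ) (x v' : J → Pl) (l : J → ℝ),
      (∀ j, EA (β j) ρ M0 H η) → (∀ j, 1 ≤ τ j ∧ τ j ≤ Λ1 * T) →
      (∀ j, Axis (mm m (s0 i) 0) (g j) (x j) (v' j) (l j)) → (∀ j, l j ≤ ρ) →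
      ((nn i : ℝ) + 1) ^ (-(3 / 2) : ℝ) ≤ |∑ j, sgn (ep j) * (τ j / T) *
        pint Γ (mm m (s0 i) 0) (nn i + 1) (pc i) (x j) (v' j) (l j)| →
      ∀ θ : ℝ → ℝ, (∀ y, |θ y| ≤ 1) → ∀ pt : J → Pl, (∀ j, |(pt j).2| ≤ 2 * δ) →
      ‖∫ t in (0 : ℝ)..1, (((4 * t * (1 - t)) ^ Mb : ℝ) : ℂ) * ∏ j, B35.cj (ep j)
        (((θ (pt j).2 : ℝ) : ℂ) * GG (mm m (s0 i) 0) (mm m (s i) (v i * t)) N
        (rst (β j)) (τ j) (g j) (x j) (v' j) (pt j))‖ ≤
        (V ^ (N + 1) * (T * M0)) ^ Fintype.card J *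
          (Real.exp (Mb - T * w i * ((nn i : ℝ) + 1) ^ (-(3 / 2) : ℝ) / C) + (1 / 5) ^ Mb) := by
  classical
  obtain ⟨CG, hCG, hG⟩ := der h
  obtain ⟨C7, hC7, hA⟩ := AA_ext h hP hQ
  set q : ℕ := Fintype.card J with hq
  have hΛ0 : 0 < Λ1 := by linarith
  set K : ℝ := 256 * ((q + 1) * Λ1) with hK
  set C : ℕ := ⌈K⌉₊ + ⌈12 * (q * (Λ1 * CG))⌉₊ + 3 * C7 + 192 with hC
  have hKC : K ≤ C := (Nat.le_ceil _).trans (by rw [hC]; exact_mod_cast (by omega))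
  have hK3C : 12 * (q * (Λ1 * CG)) ≤ C :=
    (Nat.le_ceil _).trans (by rw [hC]; exact_mod_cast (by omega))
  have hC192 : (192 : ℝ) ≤ C := by rw [hC]; exact_mod_cast (by omega)
  have hCn : 3 * C7 + 1 ≤ C ∧ 1 ≤ C := by omega
  clear_value C
  clear hC
  refine ⟨C, hCn.2, ?_⟩
  intro i N Mb T ρ δ M0 H η V hT hρ1 hδ hδ1 hM0 hH hη hV hv1 hv2 hs1 hs2 β τ ep g x v' l hβ hτ
    hax hl hlow θ hθ pt hpt
  have hT0 : 0 < T := by linarith
  have hρp : 0 ≤ ρ := by linarith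
  set n1 : ℝ := (nn i : ℝ) + 1 with hn1
  have hn11 : 1 ≤ n1 := by
    have : (0 : ℝ) ≤ nn i := Nat.cast_nonneg _
    linarith
  have hn10 : 0 < n1 := by linarith
  have hw := (h.w_mem i).1
  have he := (h.e_mem i).1
  have hv := (h.v_mem i).1
  obtain ⟨hV7, hV7V⟩ := D8_vv (N := N) (Q := Q i) (H := H) (ρ := ρ) (C := C) (C7 := C7) (K := K)
    hCn.1 hKC hC7 (hQ i) hH hρp
  rw [← hV] at hV7V
  set V7 : ℝ := vv C7 N (Q i) H ρ with hV7d
  have hV70 : 0 < V7 := by linarith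
  have hqΛ : (0 : ℝ) ≤ q * Λ1 := by positivity
  have hK256 : 256 * Λ1 ≤ K := by
    rw [hK]
    linarith
  have hV73 : V7 ≤ V7 ^ 3 := le_self_pow₀ hV7 (by norm_num)
  have hVa : 256 * Λ1 * V7 ≤ V := by
    have h1 : 256 * Λ1 * V7 ≤ K * V7 ^ 3 := by gcongr
    linarith
  have hV0 : 0 < V := by
    have : 0 < 256 * Λ1 * V7 := by positivity
    linarith
  have hΛV : V7 ≤ Λ1 * V7 := le_mul_of_one_le_left hV70.le hΛ
  have hV4 : 4 * V7 ≤ V := by linarith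
  have hVΛ : Λ1 * V7 ≤ V := by linarith
  -- the radius
  set r : ℝ := V7⁻¹ / v i with hr
  have hr0 : 0 < r := by positivity
  have hr4 : 4 ≤ r := by
    rw [hr, le_div_iff₀ hv, ← one_div, le_div_iff₀ hV70]
    have h1 := mul_le_mul_of_nonneg_right hV4 hv.le
    linarith
  -- the points
  set m0 : Pl → Co := mm m (s0 i) 0 with hm0
  have hHM : HM Γ m0 := hm_mm h.cf0 i 0
  set X : J → Pl := fun j => Fm m0 (x j) (v' j) (pt j) with hX
  have hne : ∀ j, g j ≠ 1 ∧ g j • X j ≠ X j := fun j =>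
    ⟨(Axis_ne h.cf.hX h.cf.hO hHM (hax j)).1, (Axis_ne h.cf.hX h.cf.hO hHM (hax j)).2 _⟩
  set d : J → ℝ → ℝ := fun j t => BR.ds (mm m (s i) (v i * t)) (X j) (g j • X j) with hd
  have hds : ∀ j, ContDiff ℝ ∞ (d j) := fun j =>
    (ds_smooth (cf_scale h.cf h.v_mem) i (hne j).2.symm).1
  have hpt2 : ∀ j, |(pt j).2| ≤ 2 := fun j => (hpt j).trans (by linarith)
  set c : J → ℝ := fun j => sgn (ep j) * τ j with hc
  have hsgn : ∀ ε : Bool, |sgn ε| = 1 := by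
    intro ε
    cases ε <;> simp [sgn]
  have hcle : ∀ j, |c j| ≤ Λ1 * T := by
    intro j
    have h1 : 0 ≤ τ j := by linarith [(hτ j).1]
    simp only [hc, abs_mul, hsgn, one_mul, abs_of_nonneg h1]
    exact (hτ j).2
  set f : ℝ → ℝ := fun t => -∑ j, c j * d j t with hf
  set G : ℝ → ℂ := fun t => ∏ j, (((θ (pt j).2 : ℝ) : ℂ) *
    B35.cj (ep j) (AA m0 (mm m (s i) (v i * t)) N (rst (β j)) (τ j) (g j) (x j) (v' j)
      (pt j))) with hGd
  have hint : ∀ t : ℝ, ∏ j, B35.cj (ep j) (((θ (pt j).2 : ℝ) : ℂ) *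
      GG m0 (mm m (s i) (v i * t)) N (rst (β j)) (τ j) (g j) (x j) (v' j) (pt j)) =
      G t * Complex.exp (Complex.I * ((f t : ℝ) : ℂ)) := by
    intro t
    simp only [D8_GG]
    rw [Finset.prod_mul_distrib, ← Complex.exp_sum]
    congr 2
    rw [← Finset.mul_sum, ← Complex.ofReal_sum]
    congr 2
    simp only [hf, hc, ← Finset.sum_neg_distrib]
    rfl
  -- the extensions
  have hAd : ∀ j, HX r (V7 ^ (N + 1) * (τ j * M0)) (fun t =>
        AA m0 (mm m (s i) (v i * t)) N (rst (β j)) (τ j) (g j) (x j) (v' j) (pt j)) ∧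
      HX r V7 (fun t => ((d j t : ℝ) : ℂ)) := fun j =>
    hA i (g j) (x j) (v' j) (l j) (hax j) N (β j) ρ M0 H η (τ j) V7 (hl j) hρ1 hM0 hH hη
      (hτ j).1 (hβ j) hV7d (pt j) (X j) (hpt2 j) rfl
  have hGX : HX r ((V ^ (N + 1) * (T * M0)) ^ q) G := by
    have h1 : ∀ j ∈ (Finset.univ : Finset J), HX r (V ^ (N + 1) * (T * M0))
        (fun t => (((θ (pt j).2 : ℝ) : ℂ) * B35.cj (ep j) (AA m0 (mm m (s i) (v i * t)) N
          (rst (β j)) (τ j) (g j) (x j) (v' j) (pt j)))) := by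
      intro j _
      refine HX_mono (HX_mul (HX_const r ((θ (pt j).2 : ℝ) : ℂ)) (HX_cj (ep j) (hAd j).1))
        le_rfl ?_
      rw [Complex.norm_real, Real.norm_eq_abs]
      have h2 : V7 ^ (N + 1) * (τ j * M0) ≤ V7 ^ (N + 1) * (Λ1 * T * M0) :=
        mul_le_mul_of_nonneg_left (mul_le_mul_of_nonneg_right (hτ j).2 hM0) (by positivity)
      have h3 : Λ1 ≤ Λ1 ^ (N + 1) := le_self_pow₀ hΛ (by omega)
      have h4 : V7 ^ (N + 1) * (Λ1 * T * M0) ≤ V7 ^ (N + 1) * (Λ1 ^ (N + 1) * T * M0) := by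
        gcongr
      have h5 : V7 ^ (N + 1) * (Λ1 ^ (N + 1) * T * M0) = (Λ1 * V7) ^ (N + 1) * (T * M0) := by
        rw [mul_pow]
        ring
      have h6 : (Λ1 * V7) ^ (N + 1) * (T * M0) ≤ V ^ (N + 1) * (T * M0) := by
        gcongr
      have h7 : 0 ≤ V7 ^ (N + 1) * (τ j * M0) := by
        have := (hτ j).1
        positivity
      calc |θ (pt j).2| * (V7 ^ (N + 1) * (τ j * M0)) ≤ 1 * (V7 ^ (N + 1) * (τ j * M0)) :=
            mul_le_mul_of_nonneg_right (hθ _) h7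
        _ ≤ V ^ (N + 1) * (T * M0) := by
            rw [one_mul]
            linarith
    have h8 := HX_prod Finset.univ (B := fun _ => V ^ (N + 1) * (T * M0)) h1
    rw [Finset.prod_const, Finset.card_univ] at h8
    exact h8
  have hfX : HX r (q * (Λ1 * T * V7)) fun t => ((f t : ℝ) : ℂ) := by
    have h1 : ∀ j ∈ (Finset.univ : Finset J), HX r (Λ1 * T * V7)
        (fun t => ((-(c j) : ℝ) : ℂ) * ((d j t : ℝ) : ℂ)) := by
      intro j _
      refine HX_mono (HX_mul (HX_const r ((-(c j) : ℝ) : ℂ)) (hAd j).2) le_rfl ?_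
      rw [Complex.norm_real, Real.norm_eq_abs, abs_neg]
      exact mul_le_mul_of_nonneg_right (hcle j) hV70.le
    have h2 := HX_sum Finset.univ (B := fun _ => Λ1 * T * V7) h1
    rw [Finset.sum_const, Finset.card_univ, nsmul_eq_mul] at h2
    have h3 : (fun t => ∑ j, ((-(c j) : ℝ) : ℂ) * ((d j t : ℝ) : ℂ)) =
        fun t => ((f t : ℝ) : ℂ) := by
      funext t
      simp only [hf]
      push_cast
      rw [← Finset.sum_neg_distrib]
      exact Finset.sum_congr rfl fun j _ => by ring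
    rw [← h3]
    exact h2
  -- the derivative
  set n3 : ℝ := n1 ^ (-(3 / 2) : ℝ) with hn3
  have hn30 : 0 < n3 := Real.rpow_pos_of_pos hn10 _
  set P : J → ℝ := fun j => pint Γ m0 (nn i + 1) (pc i) (x j) (v' j) (l j) with hPd
  set S0 : ℝ := ∑ j, sgn (ep j) * (τ j / T) * P j with hS0
  have hTS : T * S0 = ∑ j, c j * P j := by
    rw [hS0, Finset.mul_sum]
    refine Finset.sum_congr rfl fun j _ => ?_
    simp only [hc]
    field_simp
  set S : ℝ := w i * T * n3 / 4 with hS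
  have hSpos : 0 < S := by positivity
  have hder : ∀ t ∈ Icc (0 : ℝ) 1, deriv f t = -∑ j, c j * deriv (d j) t ∧
      ((0 ≤ S0 → S ≤ ∑ j, c j * deriv (d j) t) ∧
        (S0 < 0 → ∑ j, c j * deriv (d j) t ≤ -S)) := by
    intro t ht
    refine ⟨I1_der c hds t, ?_⟩
    have h2 : ∀ j, |deriv (d j) t - w i / 2 * P j| ≤
        CG * w i * (1 + ρ) ^ 2 * (n1 * (√(e i) + 2 * δ) + 1 / n1 ^ 2) := by
      intro j
      have h3 := hG i t ht (g j) (x j) (v' j) (l j) (hax j) (pt j).1 (pt j).2 (hpt2 j) (X j) rfl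
      refine h3.trans ?_
      have hl0 := (hax j).pos
      have h4 : (1 + l j) ^ 2 ≤ (1 + ρ) ^ 2 := pow_le_pow_left₀ (by linarith) (by linarith [hl j]) 2
      have h5 : √(e i) + |(pt j).2| ≤ √(e i) + 2 * δ := by linarith [hpt j]
      have h6 : 0 ≤ √(e i) + |(pt j).2| := by positivity
      have h7 : CG * w i * (1 + l j) ^ 2 ≤ CG * w i * (1 + ρ) ^ 2 :=
        mul_le_mul_of_nonneg_left h4 (by positivity)
      exact mul_le_mul h7 (by
        have := mul_le_mul_of_nonneg_left h5 hn10.le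
        linarith) (by positivity) (by positivity)
    have h8 : |∑ j, c j * (deriv (d j) t - w i / 2 * P j)| ≤
        q * (Λ1 * T * (CG * w i * (1 + ρ) ^ 2 * (n1 * (√(e i) + 2 * δ) + 1 / n1 ^ 2))) :=
      I1_le hcle h2 (by positivity)
    have h9 : q * (Λ1 * T * (CG * w i * (1 + ρ) ^ 2 * (n1 * (√(e i) + 2 * δ) + 1 / n1 ^ 2))) ≤
        w i * T * n3 / 4 := by
      have h10 := I1_small (C := C) (K := q * (Λ1 * CG)) (ρ := ρ) (n1 := n1) (e := e i)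
        (δ := δ) (by positivity) hK3C hn11 hδ hs1 hs2
      calc q * (Λ1 * T * (CG * w i * (1 + ρ) ^ 2 * (n1 * (√(e i) + 2 * δ) + 1 / n1 ^ 2)))
          = w i * T * (q * (Λ1 * CG) * (1 + ρ) ^ 2 * (n1 * (√(e i) + 2 * δ) + 1 / n1 ^ 2)) := by
            ring
        _ ≤ w i * T * (1 / 4 * n1 ^ (-(3 / 2) : ℝ)) :=
            mul_le_mul_of_nonneg_left h10 (by positivity)
        _ = w i * T * n3 / 4 := by
            rw [hn3]
            ring
    have h11 : ∑ j, c j * (deriv (d j) t - w i / 2 * P j) =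
        ∑ j, c j * deriv (d j) t - w i / 2 * (T * S0) := by
      rw [hTS, Finset.mul_sum, ← Finset.sum_sub_distrib]
      refine Finset.sum_congr rfl fun j _ => ?_
      ring
    rw [h11] at h8
    exact D8_S hw hT0 hlow h8 h9
  have hd' : (∀ t ∈ Icc (0 : ℝ) 1, S ≤ deriv f t) ∨ ∀ t ∈ Icc (0 : ℝ) 1, deriv f t ≤ -S := by
    rcases lt_or_ge S0 0 with h0 | h0
    · left
      intro t ht
      obtain ⟨h1, -, h2⟩ := hder t ht
      rw [h1]
      linarith [h2 h0]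
    · right
      intro t ht
      obtain ⟨h1, h2, -⟩ := hder t ht
      rw [h1]
      linarith [h2 h0]
  -- the condition
  have hB' : 64 * (q * (Λ1 * T * V7)) / r ^ 2 ≤ S := by
    have h1 : 64 * (q * (Λ1 * T * V7)) / r ^ 2 = 64 * (q * Λ1) * V7 ^ 3 * v i ^ 2 * T := by
      rw [hr]
      field_simp
    have h2 : 64 * (q * Λ1) * V7 ^ 3 ≤ V / 4 := by
      have h3 : 256 * (q * Λ1) ≤ K := by
        rw [hK]
        linarith
      have h4 : 256 * (q * Λ1) * V7 ^ 3 ≤ K * V7 ^ 3 := by gcongr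
      linarith
    have h5 : 1 / n1 ^ 2 ≤ n3 := by
      have h6 : n1 ^ (-2 : ℝ) ≤ n3 := Real.rpow_le_rpow_of_exponent_le hn11 (by norm_num)
      have h7 : n1 ^ (-2 : ℝ) = 1 / n1 ^ 2 := by
        rw [Real.rpow_neg hn10.le, one_div]
        norm_num
      rwa [h7] at h6
    have h8 : V * v i ^ 2 ≤ w i * n3 := by
      have h9 : V * v i ^ 2 ≤ w i * (1 / n1 ^ 2) := by
        rw [mul_one_div, le_div_iff₀ (by positivity)]
        exact hv2
      exact h9.trans (mul_le_mul_of_nonneg_left h5 hw.le)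
    rw [h1]
    calc 64 * (q * Λ1) * V7 ^ 3 * v i ^ 2 * T ≤ V / 4 * v i ^ 2 * T := by gcongr
      _ = V * v i ^ 2 * T / 4 := by ring
      _ ≤ w i * n3 * T / 4 := by gcongr
      _ = S := by
          rw [hS]
          ring
  have hmain := core Mb hr4 hGX hfX hSpos hd' hB'
  simp only [hint]
  refine hmain.trans ?_
  have hBn : 0 ≤ (V ^ (N + 1) * (T * M0)) ^ q := by positivity
  refine mul_le_mul_of_nonneg_left ?_ hBn
  have hexp : (Mb : ℝ) / 144 - S / 48 ≤ Mb - T * w i * n3 / C := by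
    have hMb : (0 : ℝ) ≤ Mb := Nat.cast_nonneg _
    have hC0 : (0 : ℝ) < C := by linarith
    have h1 : T * w i * n3 / C ≤ T * w i * n3 / 192 :=
      div_le_div_of_nonneg_left (by positivity) (by norm_num) hC192
    have h2 : S / 48 = T * w i * n3 / 192 := by
      rw [hS]
      ring
    linarith
  have := Real.exp_le_exp.2 hexp
  linarith

end BD36
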