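import Pool.Agent.LibBE36D.DB0
import Pool.Agent.LibBE66.P4

/-! ROW DB1 : the metrics of a block are close to the base metric. MEDIUM. Template: LibBE66/P4.lean (`near_ex`, `near_nx`, `near_bd`).
PLAN. `ex_near`: the proof of `BE66.near_ex` word for word (it uses only `hP.cx` and `0 < P.c n`: here `(c_pos hP n).1`, LibBE36F/FA3).
`near_cell`: by `sC_form` (LibBE36F/FA2) and `sP_form` (FA1), `thd 0 = 0`, `thd x = x` for `|x| ≤ 4` (`thd_id'`, DB0), the two exponents are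
`nx D P.m h1`, `nx D P.m h0` with `h0 = Mo n e (ex (zer ξ))`, `h1 = Mo n e (ex (upI (mix ξ η) (n, c) 0)) + x w Mo n e (per ..)`;
`Mo (ex1) - Mo (ex0) = Mo (ex1 - ex0)` (`Mo_add` of IFM with `t = -1`, applied backwards; `ex_test`), `|Mo f| ≤ 3 sup |f|` (`Mo_sup`; `ex1 - ex0` is in
`Test Γ`: `Test` is closed under `+` and multiples, look for `Test_add`-like lemmas or unfold: smooth and invariant), `|Mo (per ..)| ≤ 3 C'` (`BGM.per_bmq_le`,
`BGM.per_bmq_nonneg`, `BGM.QH1_per`: in `Test`), then `BE66.near_nx` (needs continuity: `Mo_test`). The coefficients agree outside the scale `bk k`: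
`hagree` in `near_bd`. -/

open MeasureTheory Set Filter Topology
open scoped ContDiff unitInterval

namespace F36

open BGS BR BE B35
open Pool.BGR (upI)

variable {Γ : Type} [Group Γ] [MulAction Γ Pl] {D : Set Pl} {P : Dt}

theorem ex_near (hP : Ok Γ D P) : ∃ C : ℝ, 0 ≤ C ∧ ∀ (n : ℕ) (ζ ζ' : Dir → I),
    (∀ d : Dir, d.1 ≠ n → ζ d = ζ' d) → ∀ z,
      |BGM.ex Γ P.ψ P.L P.c ζ z - BGM.ex Γ P.ψ P.L P.c ζ' z| ≤
        C * ((n : ℝ) + 1) ^ 2 * P.c n := by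
  have hX := hP.cx.hX
  have hcs := hP.cx.cs
  obtain ⟨C, hC0, hC⟩ := BGM.per_bmq_le hX P.L
  refine ⟨(2 * P.L) ^ 2 * C, mul_nonneg (sq_nonneg _) hC0.le, ?_⟩
  intro n ζ ζ' h z
  have hcn : 0 < P.c n := (c_pos hP n).1
  have e1 : BGM.ex Γ P.ψ P.L P.c ζ z - BGM.ex Γ P.ψ P.L P.c ζ' z =
      P.c n * (BGM.psR Γ P.L ζ n z - BGM.psR Γ P.L ζ' n z) := by
    unfold BGM.ex BGM.ps
    rw [add_sub_add_left_eq_sub, ← (BGM.QH2_summable hX P.L hcs ζ z).tsum_sub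
      (BGM.QH2_summable hX P.L hcs ζ' z), tsum_eq_single n, mul_sub]
    intro R hR
    have h1 : BGM.psR Γ P.L ζ R z = BGM.psR Γ P.L ζ' R z := by
      unfold BGM.psR
      exact Finset.sum_congr rfl fun p _ => by rw [h (R, p) hR]
    rw [h1, sub_self]
  have e2 : |BGM.psR Γ P.L ζ n z - BGM.psR Γ P.L ζ' n z| ≤ (2 * P.L * ((n : ℝ) + 1)) ^ 2 * C := by
    unfold BGM.psR
    rw [← Finset.sum_sub_distrib]
    refine (Finset.abs_sum_le_sum_abs _ _).trans ?_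
    have h2 : ∀ p ∈ grid P.L (n + 1), |(ζ (n, p) : ℝ) * per Γ (BGM.bmq (n + 1) p) z -
        (ζ' (n, p) : ℝ) * per Γ (BGM.bmq (n + 1) p) z| ≤ C := by
      intro p hp
      have a0 := BGM.per_bmq_nonneg (Γ := Γ) (n + 1) p z
      have a1 := hC (n + 1) (by omega) p hp z
      have a2 := (ζ (n, p)).2.1
      have a3 := (ζ (n, p)).2.2
      have a4 := (ζ' (n, p)).2.1
      have a5 := (ζ' (n, p)).2.2
      rw [← sub_mul, abs_mul, abs_of_nonneg a0]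
      have a6 : |((ζ (n, p) : I) : ℝ) - ζ' (n, p)| ≤ 1 := by
        rw [abs_le]
        constructor <;> linarith
      calc |((ζ (n, p) : I) : ℝ) - ζ' (n, p)| * per Γ (BGM.bmq (n + 1) p) z
          ≤ 1 * per Γ (BGM.bmq (n + 1) p) z := mul_le_mul_of_nonneg_right a6 a0
        _ ≤ C := by rw [one_mul]; exact a1
    refine (Finset.sum_le_sum h2).trans ?_
    rw [Finset.sum_const, nsmul_eq_mul, BGM.QH1_card]
    push_cast
    exact le_rfl
  rw [e1, abs_mul, abs_of_pos hcn]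
  have e3 := mul_le_mul_of_nonneg_left e2 hcn.le
  refine e3.trans (le_of_eq ?_)
  ring

theorem near_cell (hP : Ok Γ D P) : ∃ C : ℝ, 0 ≤ C ∧ ∀ (p : Pr) (k : ℕ) (ξ η : Dir → I)
    (c : ℤ × ℤ) (w x : ℝ), c ∈ grid P.L (bk k + 1) → |x| ≤ 4 → |x * w| ≤ P.c (bk k) →
    ∀ z, |sC P p Γ D k ξ η c w (x, z) - sP P p Γ D k ξ η (0, z)| ≤
      C * ((bk k : ℝ) + 1) ^ 2 * P.c (bk k) := by
  have hX := hP.cx.hX
  obtain ⟨C, hC0, hC⟩ := ex_near hP
  obtain ⟨C', hC0', hC'⟩ := BGM.per_bmq_le hX P.L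
  refine ⟨2 * (3 * C + 3 * C'), by linarith [hC0'.le], ?_⟩
  intro p k ξ η c w x hc hx hxw z
  set n := bk k with hn
  have he : 0 < p.e k := Real.rpow_pos_of_pos (by norm_num) _
  have hcn : 0 < P.c n := (c_pos hP n).1
  set ζ : Dir → I := upI (mix n ξ η) (n, c) 0 with hζ
  have hagree : ∀ d : Dir, d.1 ≠ n → ζ d = zer n ξ d := by
    intro d hd
    have h1 : ζ d = mix n ξ η d := by
      rw [hζ]
      unfold upI
      refine Function.update_of_ne ?_ _ _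
      intro h
      rw [h] at hd
      exact hd rfl
    rw [h1]
    unfold mix zer
    rw [if_neg hd, if_neg hd]
  have t0 : BGM.ex Γ P.ψ P.L P.c (zer n ξ) ∈ Test Γ := ex_test hP _
  have t1 : BGM.ex Γ P.ψ P.L P.c ζ ∈ Test Γ := ex_test hP _
  have t2 : per Γ (BGM.bmq (n + 1) c) ∈ Test Γ := BGM.QH1_per hX n c
  have t3 : (fun z => BGM.ex Γ P.ψ P.L P.c ζ z + (-1) * BGM.ex Γ P.ψ P.L P.c (zer n ξ) z) ∈
      Test Γ := by
    refine ⟨t1.1.add (contDiff_const.mul t0.1), fun γ z => ?_⟩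
    show BGM.ex Γ P.ψ P.L P.c ζ (γ • z) + (-1) * BGM.ex Γ P.ψ P.L P.c (zer n ξ) (γ • z) =
      BGM.ex Γ P.ψ P.L P.c ζ z + (-1) * BGM.ex Γ P.ψ P.L P.c (zer n ξ) z
    rw [t1.2 γ z, t0.2 γ z]
  have c0 : Continuous (B36.Mo p.n (p.e k) (BGM.ex Γ P.ψ P.L P.c (zer n ξ))) :=
    (Mo_test hX hP.hyp p.n he t0).1.continuous
  have c2 : Continuous (B36.Mo p.n (p.e k) (BGM.ex Γ P.ψ P.L P.c ζ)) :=
    (Mo_test hX hP.hyp p.n he t1).1.continuous
  have c3 : Continuous (B36.Mo p.n (p.e k) (per Γ (BGM.bmq (n + 1) c))) :=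
    (Mo_test hX hP.hyp p.n he t2).1.continuous
  have c1 : Continuous (fun z => B36.Mo p.n (p.e k) (BGM.ex Γ P.ψ P.L P.c ζ) z +
      x * (w * B36.Mo p.n (p.e k) (per Γ (BGM.bmq (n + 1) c)) z)) :=
    c2.add (continuous_const.mul (continuous_const.mul c3))
  have e1 : sC P p Γ D k ξ η c w (x, z) =
      nx D P.m (fun z => B36.Mo p.n (p.e k) (BGM.ex Γ P.ψ P.L P.c ζ) z +
        x * (w * B36.Mo p.n (p.e k) (per Γ (BGM.bmq (n + 1) c)) z)) z := by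
    rw [sC_form hP p k ξ η c w]
    show nx D P.m (fun z => B36.Mo p.n (p.e k) (BGM.ex Γ P.ψ P.L P.c ζ) z +
        thd x * (w * B36.Mo p.n (p.e k) (per Γ (BGM.bmq (n + 1) c)) z)) z = _
    rw [thd_id' hx]
  have e2 : sP P p Γ D k ξ η (0, z) =
      nx D P.m (B36.Mo p.n (p.e k) (BGM.ex Γ P.ψ P.L P.c (zer n ξ))) z := by
    have h0 : thd 0 = 0 := by rw [thd, zero_mul]
    rw [sP_form hP p k ξ η]
    simp only [h0, zero_mul, add_zero]
    try rfl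
  rw [e1, e2]
  have hn1 : (1 : ℝ) ≤ ((n : ℝ) + 1) ^ 2 := by
    have : (0 : ℝ) ≤ n := Nat.cast_nonneg n
    nlinarith
  have hb : ∀ v, |(B36.Mo p.n (p.e k) (BGM.ex Γ P.ψ P.L P.c ζ) v +
        x * (w * B36.Mo p.n (p.e k) (per Γ (BGM.bmq (n + 1) c)) v)) -
      B36.Mo p.n (p.e k) (BGM.ex Γ P.ψ P.L P.c (zer n ξ)) v| ≤
        (3 * C + 3 * C') * ((n : ℝ) + 1) ^ 2 * P.c n := by
    intro v
    have h1 : |B36.Mo p.n (p.e k) (BGM.ex Γ P.ψ P.L P.c ζ) v -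
        B36.Mo p.n (p.e k) (BGM.ex Γ P.ψ P.L P.c (zer n ξ)) v| ≤
          3 * (C * ((n : ℝ) + 1) ^ 2 * P.c n) := by
      have a1 := Mo_add hX hP.hyp p.n he t1 t0 (-1) v
      have a2 := Mo_sup hX hP.hyp p.n he t3 (B := C * ((n : ℝ) + 1) ^ 2 * P.c n)
        (fun y => by
          have a3 := hC n ζ (zer n ξ) hagree y
          have a4 : BGM.ex Γ P.ψ P.L P.c ζ y + (-1) * BGM.ex Γ P.ψ P.L P.c (zer n ξ) y =
              BGM.ex Γ P.ψ P.L P.c ζ y - BGM.ex Γ P.ψ P.L P.c (zer n ξ) y := by ring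
          rw [a4]
          exact a3) v
      rw [a1] at a2
      have a5 : B36.Mo p.n (p.e k) (BGM.ex Γ P.ψ P.L P.c ζ) v -
        B36.Mo p.n (p.e k) (BGM.ex Γ P.ψ P.L P.c (zer n ξ)) v =
          B36.Mo p.n (p.e k) (BGM.ex Γ P.ψ P.L P.c ζ) v +
            (-1) * B36.Mo p.n (p.e k) (BGM.ex Γ P.ψ P.L P.c (zer n ξ)) v := by ring
      rw [a5]
      exact a2
    have h2 : |x * (w * B36.Mo p.n (p.e k) (per Γ (BGM.bmq (n + 1) c)) v)| ≤
        3 * C' * ((n : ℝ) + 1) ^ 2 * P.c n := by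
      have a1 := Mo_sup hX hP.hyp p.n he t2 (B := C') (fun y => by
        rw [abs_of_nonneg (BGM.per_bmq_nonneg (Γ := Γ) (n + 1) c y)]
        exact hC' (n + 1) (by omega) c hc y) v
      rw [← mul_assoc, abs_mul]
      have a2 : |x * w| * |B36.Mo p.n (p.e k) (per Γ (BGM.bmq (n + 1) c)) v| ≤
          P.c n * (3 * C') := mul_le_mul hxw a1 (abs_nonneg _) hcn.le
      have a5 : P.c n * (3 * C') * 1 ≤ P.c n * (3 * C') * ((n : ℝ) + 1) ^ 2 :=
        mul_le_mul_of_nonneg_left hn1 (mul_nonneg hcn.le (by linarith [hC0'.le]))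
      calc |x * w| * |B36.Mo p.n (p.e k) (per Γ (BGM.bmq (n + 1) c)) v| ≤ P.c n * (3 * C') := a2
        _ = P.c n * (3 * C') * 1 := by ring
        _ ≤ P.c n * (3 * C') * ((n : ℝ) + 1) ^ 2 := a5
        _ = _ := by ring
    have e3 : (B36.Mo p.n (p.e k) (BGM.ex Γ P.ψ P.L P.c ζ) v +
        x * (w * B36.Mo p.n (p.e k) (per Γ (BGM.bmq (n + 1) c)) v)) -
      B36.Mo p.n (p.e k) (BGM.ex Γ P.ψ P.L P.c (zer n ξ)) v =
      (B36.Mo p.n (p.e k) (BGM.ex Γ P.ψ P.L P.c ζ) v -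
        B36.Mo p.n (p.e k) (BGM.ex Γ P.ψ P.L P.c (zer n ξ)) v) +
        x * (w * B36.Mo p.n (p.e k) (per Γ (BGM.bmq (n + 1) c)) v) := by ring
    rw [e3]
    refine (abs_add_le _ _).trans ((add_le_add h1 h2).trans (le_of_eq ?_))
    ring
  have h3 := BE66.near_nx hX hP.hm c0 c1 hb z
  refine h3.trans (le_of_eq ?_)
  ring

end F36
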