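import Pool.Agent.LibBE36D.DB0
import Pool.Agent.LibBE66.P5

/-! ROW DB2 : the derivative of the exponent in the coefficient of the cell. MEDIUM. Template: LibBE66/P5.lean (`der_bd`; cite `BE66.P5_G`, `BE66.mean_bd`).
PLAN. `n = bk k`, `cn = P.c n`, `w = cn ^ (1/3)`, `v = cn ^ (2/3)`, `v * w = cn` (`Real.rpow_add`). By `sC_form` (LibBE36F/FA2) the exponent is
`H z + thd (v r) * (w * q z) - log (∫ w' in D, exp (H w' + thd (v r) * (w * q w')) √dt)` with `H = Mo n e (ex (..))`, `q = Mo n e (per Γ (bmq ..))` (both in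
`Test Γ`: `Mo_test`, `ex_test`; `|H| ≤ 3 M` by `Mo_sup` and `BGM.D2_bound`, `|q| ≤ 3 Cp` by `Mo_sup` and `BGM.per_bmq_le`). `thd` has the derivative `1` at `v t`, `|v t| ≤ 1 < 4`
(`thd_der`, `thd_id'` in DB0), so the derivative is `v w (q z - J / A) = cn (q z - J / A)`, `A = ∫ exp (..) √dt`, `J = ∫ q exp (..) √dt`. Take
`cc z = J / A + (per .. z - q z)` (continuous): `cn (q - J/A) = cn (per - cc)`. `|per - q| ≤ 1/(n+1)^2` is the hypothesis; so
`|J| ≤ |∫ per exp (..) √dt| + 1/(n+1)^2 * A ≤ C1/(n+1)^2 + A/(n+1)^2` (`BE66.mean_bd` with `B = 3 M + 3 Cp`), `A ≥ exp (-(3 M + 3 Cp)) ∫ √dt > 0` (as in P5). -/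

open MeasureTheory Set Filter Topology
open scoped ContDiff unitInterval

namespace F36

open BGS BR BE B35
open Pool.BGR (upI)

variable {Γ : Type} [Group Γ] [MulAction Γ Pl] {D : Set Pl} {P : Dt}

theorem der_cell (hP : Ok Γ D P) : ∃ C : ℝ, 0 ≤ C ∧ ∀ (p : Pr) (k : ℕ) (ξ η : Dir → I)
    (c : ℤ × ℤ), c ∈ grid P.L (bk k + 1) →
    (∀ z, |B36.Mo p.n (p.e k) (per Γ (BGM.bmq (bk k + 1) c)) z -
      per Γ (BGM.bmq (bk k + 1) c) z| ≤ 1 / ((bk k : ℝ) + 1) ^ 2) →
    ∀ t ∈ Icc (0 : ℝ) 1, ∃ cc : Pl → ℝ, Continuous cc ∧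
      (∀ z, |cc z| ≤ C / ((bk k : ℝ) + 1) ^ 2) ∧
      ∀ z, HasDerivAt (fun r => sC P p Γ D k ξ η c (P.c (bk k) ^ (1 / 3 : ℝ))
        (P.c (bk k) ^ (2 / 3 : ℝ) * r, z))
        (P.c (bk k) * (per Γ (BGM.bmq (bk k + 1) c) z - cc z)) t := by
  have hX := hP.cx.hX
  obtain ⟨M, hM, HM1⟩ := BGM.D2_bound hP.cx
  obtain ⟨Cp, hCp, HC⟩ := BGM.per_bmq_le hX P.L
  obtain ⟨C1, hC1, HC1⟩ := BE66.mean_bd hX hP.hm P.L (3 * M + 3 * Cp)
  have hρ := AN8b_rho_cont hP.hm
  have hA0 : 0 < ∫ z in D, √(dt (P.m z)) := BM73.area_pos hX hP.cx.rp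
  set A0 := ∫ z in D, √(dt (P.m z)) with hA0d
  refine ⟨C1 / (Real.exp (-(3 * M + 3 * Cp)) * A0) + 2, by positivity,
    fun pr k ξ η c hc hper t ht => ?_⟩
  have he : 0 < pr.e k := Real.rpow_pos_of_pos two_pos _
  set n := bk k with hn
  set c0 := P.c n with hc0
  have hc00 : 0 < c0 := hP.cx.cs.pos n
  have hc01 : c0 ≤ 1 := hP.cx.cs.le_one n
  set w : ℝ := c0 ^ (1 / 3 : ℝ) with hw
  set v : ℝ := c0 ^ (2 / 3 : ℝ) with hv
  have hw0 : 0 < w := Real.rpow_pos_of_pos hc00 _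
  have hv0 : 0 < v := Real.rpow_pos_of_pos hc00 _
  have hvw : v * w = c0 := by
    rw [hv, hw, ← Real.rpow_add hc00]
    norm_num
  have hv1 : v ≤ 1 := Real.rpow_le_one hc00.le hc01 (by norm_num)
  have het : BGM.ex Γ P.ψ P.L P.c (upI (mix n ξ η) (n, c) 0) ∈ Test Γ :=
    BGM.D2_smooth hP.cx _
  have hpt : per Γ (BGM.bmq (n + 1) c) ∈ Test Γ := BGM.QH1_per hX n c
  set pe : Pl → ℝ := per Γ (BGM.bmq (n + 1) c) with hpe
  set H : Pl → ℝ := B36.Mo pr.n (pr.e k) (BGM.ex Γ P.ψ P.L P.c (upI (mix n ξ η) (n, c) 0))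
    with hH
  set q : Pl → ℝ := B36.Mo pr.n (pr.e k) pe with hq
  have hHc : Continuous H := (Mo_test hX hP.hyp pr.n he het).1.continuous
  have hqc : Continuous q := (Mo_test hX hP.hyp pr.n he hpt).1.continuous
  have hpc : Continuous pe := hpt.1.continuous
  have hp0 : ∀ z, 0 ≤ pe z := BGM.per_bmq_nonneg (n + 1) c
  have hp1 : ∀ z, pe z ≤ Cp := fun z => HC (n + 1) (by omega) c hc z
  have hpa : ∀ z, |pe z| ≤ Cp := fun z => by
    rw [abs_of_nonneg (hp0 z)]
    exact hp1 z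
  have hqa : ∀ z, |q z| ≤ 3 * Cp := fun z => Mo_sup hX hP.hyp pr.n he hpt hpa z
  have hHa : ∀ z, |H z| ≤ 3 * M := fun z => Mo_sup hX hP.hyp pr.n he het (fun z => HM1 _ z) z
  have hG := BE66.P5_G hX hρ (fun z => Real.sqrt_nonneg _) hHc hqc hHa hqa w (v * t)
  set A := fun u : ℝ => ∫ z in D, Real.exp (H z + u * w * q z) * √(dt (P.m z)) with hAd
  have htw : ∀ z, |H z + v * t * w * q z| ≤ 3 * M + 3 * Cp := fun z => by
    refine (abs_add_le _ _).trans (add_le_add (hHa z) ?_)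
    have h1 : v * t * w = c0 * t := by rw [← hvw]; ring
    rw [h1, abs_mul, abs_of_nonneg (mul_nonneg hc00.le ht.1)]
    calc c0 * t * |q z| ≤ 1 * 1 * (3 * Cp) := by
          have h1 := ht.2
          have h2 := hqa z
          have h3 := ht.1
          gcongr
      _ = 3 * Cp := by ring
  have hhc : Continuous fun z => H z + v * t * w * q z := hHc.add (continuous_const.mul hqc)
  have hic : Continuous fun z => Real.exp (H z + v * t * w * q z) * √(dt (P.m z)) :=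
    (Real.continuous_exp.comp hhc).mul hρ
  have hAt : Real.exp (-(3 * M + 3 * Cp)) * A0 ≤ A (v * t) := by
    rw [hA0d, ← integral_const_mul]
    refine integral_mono (Cmp_int hX (continuous_const.mul hρ)) (Cmp_int hX hic) fun z => ?_
    refine mul_le_mul_of_nonneg_right (Real.exp_le_exp.2 ?_) (Real.sqrt_nonneg _)
    exact (abs_le.1 (htw z)).1
  have hAt0 : 0 < A (v * t) := lt_of_lt_of_le (by positivity) hAt
  set J := ∫ z in D, q z * (Real.exp (H z + v * t * w * q z) * √(dt (P.m z))) with hJ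
  have hn0 : (0 : ℝ) < ((n : ℝ) + 1) ^ 2 := by positivity
  have hJ1 : |J| ≤ C1 / ((n : ℝ) + 1) ^ 2 + 1 / ((n : ℝ) + 1) ^ 2 * A (v * t) := by
    have h1 := HC1 (n + 1) (by omega) c hc _ hhc htw
    have h2 : (((n + 1 : ℕ) : ℝ)) = (n : ℝ) + 1 := by push_cast; rfl
    rw [h2] at h1
    have h3 : J = (∫ z in D, pe z * (Real.exp (H z + v * t * w * q z) * √(dt (P.m z)))) +
        ∫ z in D, (q z - pe z) * (Real.exp (H z + v * t * w * q z) * √(dt (P.m z))) := by
      have h5 := integral_add (Cmp_int hX (hpc.mul hic)) (Cmp_int hX ((hqc.sub hpc).mul hic))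
      simp only [Pi.mul_apply, Pi.sub_apply] at h5
      rw [hJ, ← h5]
      refine integral_congr_ae (Eventually.of_forall fun z => ?_)
      simp only
      ring
    have h4 : |∫ z in D, (q z - pe z) * (Real.exp (H z + v * t * w * q z) *
        √(dt (P.m z)))| ≤ 1 / ((n : ℝ) + 1) ^ 2 * A (v * t) := by
      rw [hAd]
      simp only
      rw [← integral_const_mul, ← Real.norm_eq_abs]
      refine norm_integral_le_of_norm_le (Cmp_int hX (continuous_const.mul hic))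
        (Eventually.of_forall fun z => ?_)
      rw [norm_mul, Real.norm_eq_abs,
        Real.norm_of_nonneg (mul_nonneg (Real.exp_pos _).le (Real.sqrt_nonneg _))]
      exact mul_le_mul_of_nonneg_right (hper z)
        (mul_nonneg (Real.exp_pos _).le (Real.sqrt_nonneg _))
    rw [h3]
    exact (abs_add_le _ _).trans (add_le_add h1 h4)
  have hG' : HasDerivAt A (w * J) (v * t) := by
    rw [hJ, ← integral_const_mul]
    exact hG
  have hJA : |J / A (v * t)| ≤ (C1 / (Real.exp (-(3 * M + 3 * Cp)) * A0) + 1) /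
      ((n : ℝ) + 1) ^ 2 := by
    rw [abs_div, abs_of_pos hAt0, div_le_iff₀ hAt0]
    refine hJ1.trans ?_
    have h1 : C1 ≤ C1 / (Real.exp (-(3 * M + 3 * Cp)) * A0) * A (v * t) := by
      have h2 : 0 < Real.exp (-(3 * M + 3 * Cp)) * A0 := by positivity
      calc C1 = C1 / (Real.exp (-(3 * M + 3 * Cp)) * A0) *
            (Real.exp (-(3 * M + 3 * Cp)) * A0) := by
              rw [div_mul_cancel₀ _ h2.ne']
        _ ≤ _ := mul_le_mul_of_nonneg_left hAt (div_nonneg hC1 h2.le)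
    have h3 : C1 / ((n : ℝ) + 1) ^ 2 ≤
        C1 / (Real.exp (-(3 * M + 3 * Cp)) * A0) * A (v * t) / ((n : ℝ) + 1) ^ 2 :=
      div_le_div_of_nonneg_right h1 hn0.le
    calc C1 / ((n : ℝ) + 1) ^ 2 + 1 / ((n : ℝ) + 1) ^ 2 * A (v * t)
        ≤ C1 / (Real.exp (-(3 * M + 3 * Cp)) * A0) * A (v * t) / ((n : ℝ) + 1) ^ 2 +
          1 / ((n : ℝ) + 1) ^ 2 * A (v * t) := by linarith
      _ = _ := by ring
  refine ⟨fun z => J / A (v * t) + (pe z - q z), continuous_const.add (hpc.sub hqc),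
    fun z => ?_, fun z => ?_⟩
  · refine (abs_add_le _ _).trans ?_
    have h1 : |pe z - q z| ≤ 1 / ((n : ℝ) + 1) ^ 2 := by
      rw [abs_sub_comm]
      exact hper z
    calc |J / A (v * t)| + |pe z - q z|
        ≤ (C1 / (Real.exp (-(3 * M + 3 * Cp)) * A0) + 1) / ((n : ℝ) + 1) ^ 2 +
          1 / ((n : ℝ) + 1) ^ 2 := add_le_add hJA h1
      _ = (C1 / (Real.exp (-(3 * M + 3 * Cp)) * A0) + 2) / ((n : ℝ) + 1) ^ 2 := by ring
  · have hvt : |v * t| < 4 := by
      rw [abs_of_nonneg (mul_nonneg hv0.le ht.1)]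
      have h1 : v * t ≤ 1 * 1 := mul_le_mul hv1 ht.2 ht.1 zero_le_one
      linarith
    have ht1 : HasDerivAt (fun r : ℝ => thd (v * r)) (1 * v) t := by
      have h1 : HasDerivAt (fun r : ℝ => v * r) v t := by
        have := (hasDerivAt_id t).const_mul v
        simpa using this
      exact (thd_der hvt).comp t h1
    have ht2 : thd (v * t) = v * t := thd_id' hvt.le
    have hth : HasDerivAt (fun r : ℝ => A (thd (v * r))) (w * J * (1 * v)) t := by
      have h1 : HasDerivAt A (w * J) (thd (v * t)) := by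
        rw [ht2]
        exact hG'
      exact HasDerivAt.comp t h1 ht1
    have hAth : A (thd (v * t)) ≠ 0 := by
      rw [ht2]
      exact hAt0.ne'
    have h2 := hth.log hAth
    have h3 : HasDerivAt (fun r : ℝ => H z + thd (v * r) * (w * q z)) (1 * v * (w * q z)) t :=
      (ht1.mul_const (w * q z)).const_add (H z)
    have h4 := h3.sub h2
    rw [ht2] at h4
    have hform : (fun r : ℝ => sC P pr Γ D k ξ η c w (v * r, z)) = fun r : ℝ =>
        H z + thd (v * r) * (w * q z) - Real.log (A (thd (v * r))) := by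
      funext r
      rw [sC_form hP pr k ξ η c w]
      unfold nx
      simp only [hAd, ← hn, ← hH, ← hpe, ← hq, mul_assoc]
    rw [hform]
    refine h4.congr_deriv ?_
    rw [← hvw]
    field_simp
    ring

end F36
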