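import Pool.Agent.LibBE36D.DB0
import Pool.Agent.LibBE36F.N1b

/-! ROW DB4 : the mollified bump function is close to the bump function. SHORT/MEDIUM. Cites LibBE36F/IFM `Mo_err`, `Mo_test`, N1c `e_err`, `Lm_sub`, `e_pos`;
LibBGM20 `BGM.per_bmq_deriv` (all derivatives of `per Γ (bmq (n+1) p)` of order `≤ r` are at most `C (n+1)^(..)` on a compact set; see its use in LibB35/FA0 `FA0_sum`), `BGM.QH1_per`
(smooth and invariant: in `Test Γ`); LibB35/FA0 `F0_all`.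
PLAN. `Mo_err hX hG p.n 0`: for `z ∈ closure D`, `‖iteratedFDeriv ℝ 0 (Mo f - f) z‖ ≤ C B e^(2 n)`, `norm_iteratedFDeriv_zero`, with `B = C' (bk k + 1)^(2 n + 2)`; `e^(2n) ≤ 2^(-100 k)`
(`e_err hp k`); `C C' (bk k + 1)^(2 n + 4) ≤ 2^(100 k)` eventually (`Lm_sub` with `κ := 2 n + 4`, `Lm κ k = (bk k + 1)^κ`, `Real.rpow_natCast`). From `closure D` to the plane by invariance
(`F0_all`; both functions are in `Test Γ`). -/

open MeasureTheory Set Filter Topology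
open scoped ContDiff unitInterval

namespace F36

open BGS BR BE B35
open Pool.BGR (upI)

variable {Γ : Type} [Group Γ] [MulAction Γ Pl] {D : Set Pl} {P : Dt}

theorem bump_err (hP : Ok Γ D P) {p : Pr} (hp : p.Ok) : ∃ k0 : ℕ, ∀ k ≥ k0,
    2 ^ p.n * p.e k ≤ 1 → ∀ c ∈ grid P.L (bk k + 1), ∀ z,
      |B36.Mo p.n (p.e k) (per Γ (BGM.bmq (bk k + 1) c)) z - per Γ (BGM.bmq (bk k + 1) c) z| ≤
        1 / ((bk k : ℝ) + 1) ^ 2 := by
  have hX : Surface Γ D := hP.cx.hX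
  have hK : IsCompact (closure D) := Cmp_compact hX
  obtain ⟨C, hC, hMo⟩ := Mo_err hX hP.hyp p.n 0
  obtain ⟨C', hC', hb⟩ := BGM.per_bmq_deriv hX P.L (2 * p.n) hK
  obtain ⟨k0, hk0⟩ := eventually_atTop.1
    (Lm_sub ((2 * p.n + 2 : ℕ) : ℝ) (A := C * C') (d := 100) (by norm_num))
  refine ⟨k0, fun k hk he c hc => ?_⟩
  have hf : per Γ (BGM.bmq (bk k + 1) c) ∈ Test Γ := BGM.QH1_per hX (bk k) c
  have hg : B36.Mo p.n (p.e k) (per Γ (BGM.bmq (bk k + 1) c)) ∈ Test Γ :=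
    Mo_test hX hP.hyp p.n (e_pos p k) hf
  refine F0_all hX (fun z hz => ?_) (fun γ z h => ?_)
  · have h1 := hMo (p.e k) (e_pos p k) he _ hf (C' * ((bk k + 1 : ℕ) : ℝ) ^ (2 * p.n))
      (fun j hj w hw => hb (bk k + 1) (by omega) c hc j (by omega) w hw) 0 le_rfl z hz
    rw [norm_iteratedFDeriv_zero, Real.norm_eq_abs] at h1
    refine h1.trans ?_
    have hb0 : (0 : ℝ) < (bk k : ℝ) + 1 := by positivity
    have h2 := e_err p hp k
    have h3 := hk0 k hk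
    have h4 : Lm ((2 * p.n + 2 : ℕ) : ℝ) k = ((bk k : ℝ) + 1) ^ (2 * p.n + 2) := by
      unfold Lm
      exact Real.rpow_natCast _ _
    rw [h4] at h3
    have h5 : (2 : ℝ) ^ (-(100 * k : ℝ)) = ((2 : ℝ) ^ (100 * k : ℝ))⁻¹ :=
      Real.rpow_neg (by norm_num) _
    have h6 : (0 : ℝ) < (2 : ℝ) ^ (100 * k : ℝ) := Real.rpow_pos_of_pos (by norm_num) _
    push_cast
    rw [le_div_iff₀ (by positivity)]
    calc C * (C' * ((bk k : ℝ) + 1) ^ (2 * p.n)) * p.e k ^ (2 * p.n) * ((bk k : ℝ) + 1) ^ 2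
        = (C * C' * ((bk k : ℝ) + 1) ^ (2 * p.n + 2)) * p.e k ^ (2 * p.n) := by ring
      _ ≤ (2 : ℝ) ^ (100 * k : ℝ) * ((2 : ℝ) ^ (100 * k : ℝ))⁻¹ := by
          rw [← h5]
          exact mul_le_mul h3 h2 (pow_nonneg (e_pos p k).le _) h6.le
      _ = 1 := mul_inv_cancel₀ h6.ne'
  · rw [hg.2 γ z, hf.2 γ z] at h
    exact h

end F36
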