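import Pool.Agent.LibBE36D.DB5a
import Pool.Agent.LibBE36D.DB5b

/-! The sizes of the numbers of a block. -/

open MeasureTheory Set Filter Topology
open scoped ContDiff unitInterval

namespace F36

open BGS BR B35

variable {Γ : Type} [Group Γ] [MulAction Γ Pl] {D : Set Pl} {P : Dt}

theorem sizes (hP : Ok Γ D P) (C C1 q : ℕ) (hC : 1 ≤ C) {u : ℝ} (hu : 0 < u) :
    ∃ δ0 : ℝ, 0 < δ0 ∧ ∀ p : Pr, p.Ok → p.δ ≤ δ0 → ∀ κ1 : ℝ, 0 < κ1 → κ1 ≤ 1 / 10 →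
    ∀ M0 : ℝ, 0 ≤ M0 → ∃ (C' : ℝ) (k0 : ℕ), ∀ k ≥ k0, ∀ V : ℝ,
      V = BD36.vv C (Nk κ1 k) (1 / p.e k) (1 / p.e k) (Lm (2 * κ1) k) →
      1 ≤ u * 2 ^ k ∧ 0 < dw k ∧ dw k ≤ 1 ∧ V * P.c (bk k) ^ (2 / 3 : ℝ) ≤ 1 ∧
      V * (P.c (bk k) ^ (2 / 3 : ℝ)) ^ 2 * ((bk k : ℝ) + 1) ^ 2 ≤ P.c (bk k) ∧
      C * (1 + Lm (2 * κ1) k) ^ 2 * ((bk k : ℝ) + 1) ^ 3 *
        (√(C1 * ((bk k : ℝ) + 1) ^ 2 * P.c (bk k)) + dw k) ≤ 1 ∧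
      C * (1 + Lm (2 * κ1) k) ^ 2 ≤ √((bk k : ℝ) + 1) ∧
      4 * ((Mx (bk k) : ℝ) + 1) * ((V ^ (Nk κ1 k + 2) * (2 ^ k * M0)) ^ q *
        (Real.exp (Mx (bk k) - 2 ^ k * P.c (bk k) * ((bk k : ℝ) + 1) ^ (-(3 / 2) : ℝ) / C) +
          (1 / 5) ^ Mx (bk k))) ≤ C' * p.t k := by
  obtain ⟨δ0, hδ0, hV⟩ := V_bd C hC
  refine ⟨δ0, hδ0, fun p hp hpδ κ1 h0 h1 M0 hM => ?_⟩
  obtain ⟨k1, hk1⟩ := hV p hp hpδ κ1 h0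
  obtain ⟨k2, hk2⟩ := sizes_a hP C C1 hu h0 h1
  obtain ⟨C', k3, hC', hk3⟩ := sizes_b hP C q hC h0 hM
  refine ⟨C', max k1 (max k2 k3), fun k hk V hVe => ?_⟩
  have g1 : k1 ≤ k := (le_max_left _ _).trans hk
  have g2 : k2 ≤ k := ((le_max_left _ _).trans (le_max_right _ _)).trans hk
  have g3 : k3 ≤ k := ((le_max_right _ _).trans (le_max_right _ _)).trans hk
  have hV0 : 0 ≤ V := by
    rw [hVe]
    unfold BD36.vv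
    have h2 : 0 ≤ 1 / p.e k := one_div_nonneg.2 (e_pos p k).le
    have h3 : 0 ≤ Lm (2 * κ1) k := zero_le_one.trans (Lm_one _ (by linarith) k)
    positivity
  have hV1 : V ≤ (2 : ℝ) ^ (1 / 10 * k : ℝ) := by
    rw [hVe]
    exact hk1 k g1
  obtain ⟨a1, a2, a3, a4, a5, a6, a7⟩ := hk2 k g2 V hV0 hV1
  refine ⟨a1, a2, a3, a4, a5, a6, a7, (hk3 k g3 V hV0 hV1).trans ?_⟩
  refine mul_le_mul_of_nonneg_left (Real.exp_le_exp.2 (neg_le_neg ?_)) hC'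
  refine Real.rpow_le_rpow_of_exponent_le one_le_two ?_
  exact mul_le_mul_of_nonneg_right hp.le (Nat.cast_nonneg k)

end F36
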