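import Pool.Agent.LibBE36D.Defs
import Pool.Agent.LibBE36F.N2a

/-! Small facts: the two definitions of the localised contribution agree, the form of the density. -/

open MeasureTheory Set Filter Topology
open scoped ContDiff unitInterval

namespace F36

open BGS BR BE B35

variable {Γ : Type} [Group Γ] [MulAction Γ Pl]

theorem ZT_eq (m0 m1 : Pl → Co) (θ : ℝ → ℝ) (h : ℝ) (N : ℕ) (b : ℝ → ℂ) (τ : ℝ) (g : Γ)
    (x0 v0 : Pl) (l0 : ℝ) :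
    ZT m0 m1 θ h N b τ g x0 v0 l0 = BD36.ZT m0 m1 θ h N b τ g x0 v0 l0 := by
  simp only [ZT, BD36.ZT, BD36.GG, mul_assoc]

theorem rh_form (M : ℕ) : ∃ cc : ℝ, 0 ≤ cc ∧ cc ≤ 4 * ((M : ℝ) + 1) ∧
    ∀ t : ℝ, rh M t = cc * (4 * t * (1 - t)) ^ M := by
  have h1 := rh_lower M
  have h0 : 0 < (1 / 4 : ℝ) ^ M / (4 * (M + 1)) := by positivity
  have h2 : 0 < ∫ v in (0 : ℝ)..1, (v * (1 - v)) ^ M := lt_of_lt_of_le h0 h1
  refine ⟨(1 / 4 : ℝ) ^ M / ∫ v in (0 : ℝ)..1, (v * (1 - v)) ^ M, by positivity, ?_, fun t => ?_⟩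
  · rw [div_le_iff₀ h2]
    have h6 : (1 / 4 : ℝ) ^ M = 4 * ((M : ℝ) + 1) * ((1 / 4 : ℝ) ^ M / (4 * (M + 1))) := by
      field_simp
    calc (1 / 4 : ℝ) ^ M = 4 * ((M : ℝ) + 1) * ((1 / 4 : ℝ) ^ M / (4 * (M + 1))) := h6
      _ ≤ _ := mul_le_mul_of_nonneg_left h1 (by positivity)
  · unfold rh
    rw [div_mul_eq_mul_div, ← mul_pow]
    congr 2
    ring

theorem thR_le {h e : ℝ} (hh : 0 ≤ h) (he : 0 < e) (x : ℝ) : |BE36C.thR h e x| ≤ 1 := by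
  have h1 := BE36C.norm_thE_le hh he (x : ℂ)
  rw [BE36C.thE_ofReal, Complex.norm_real, Real.norm_eq_abs] at h1
  simpa using h1

end F36
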