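import Mathlib

/-! ROW DL : the law with density `c (4 t (1 - t)) ^ M`. SHORT, ONLY MATHLIB.
PLAN. `norm_le`: `c = 1 / ∫ (4 t (1 - t)) ^ M` (take `f = 1` in `hf`, `ν` is a probability measure), and `∫_0^1 (4 t (1-t))^M dt ≥ 1 / (2 M + 1)`: by induction
`B (M + 1) = B M * (2 M + 2) / (2 M + 3)` (integration by parts), so `B M = ∏ 2k/(2k+1) ≥ 1/(2M+1)`; or Bernoulli: on `|t - 1/2| ≤ h`,
`(1 - (2 t - 1)^2)^M ≥ 1 - M (2t-1)^2`, which integrates over `|2t - 1| ≤ 1/√(M+1)` to at least `1/(3 √(M+1)) · 2`: any bound `c ≤ 2 M + 2` is enough, `one_add_mul_le_pow`. -/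

open MeasureTheory Set Filter Topology
open scoped unitInterval

namespace BD36

theorem beta_le (M : ℕ) : 1 / (2 * (M : ℝ) + 2) ≤ ∫ t in (0 : ℝ)..1, (4 * t * (1 - t)) ^ M := by
  have hc : ∀ a b : ℝ, IntervalIntegrable (fun t : ℝ => (4 * t * (1 - t)) ^ M) volume a b :=
    fun a b => Continuous.intervalIntegrable (by fun_prop) a b
  have hc2 : ∀ a b : ℝ, IntervalIntegrable (fun t : ℝ => (2 : ℝ) ^ M * t ^ M) volume a b :=
    fun a b => Continuous.intervalIntegrable (by fun_prop) a b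
  rw [← intervalIntegral.integral_add_adjacent_intervals (hc 0 (1 / 2)) (hc (1 / 2) 1)]
  have h1 : 0 ≤ ∫ t in (1 / 2 : ℝ)..1, (4 * t * (1 - t)) ^ M := by
    apply intervalIntegral.integral_nonneg (by norm_num)
    intro t ht
    apply pow_nonneg
    have h3 := ht.1
    have h4 := ht.2
    nlinarith
  have h2 : ∫ t in (0 : ℝ)..(1 / 2), (2 : ℝ) ^ M * t ^ M ≤
      ∫ t in (0 : ℝ)..(1 / 2), (4 * t * (1 - t)) ^ M := by
    apply intervalIntegral.integral_mono_on (by norm_num) (hc2 _ _) (hc _ _)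
    intro t ht
    have h3 := ht.1
    have h4 := ht.2
    rw [← mul_pow]
    apply pow_le_pow_left₀ (by linarith)
    nlinarith
  have h3 : ∫ t in (0 : ℝ)..(1 / 2), (2 : ℝ) ^ M * t ^ M = 1 / (2 * (M : ℝ) + 2) := by
    rw [intervalIntegral.integral_const_mul, integral_pow, zero_pow (by omega), sub_zero,
      pow_succ, one_div, inv_pow]
    have h5 : (2 : ℝ) ^ M ≠ 0 := by positivity
    have h6 : (M : ℝ) + 1 ≠ 0 := by positivity
    have h7 : 2 * (M : ℝ) + 2 ≠ 0 := by positivity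
    field_simp
  rw [h3] at h2
  linarith

theorem norm_le {ν : Measure I} [IsProbabilityMeasure ν] {M : ℕ} {c : ℝ}
    (hf : ∀ f : ℝ → ℂ, Continuous f → ∫ t : I, f t ∂ν =
      ∫ t in (0 : ℝ)..1, ((c * (4 * t * (1 - t)) ^ M : ℝ) : ℂ) * f t) : |c| ≤ 2 * M + 2 := by
  have h1 := hf (fun _ => 1) continuous_const
  have h2 : ∫ t : I, ((fun _ : ℝ => (1 : ℂ)) (t : ℝ)) ∂ν = 1 := by
    simp
  rw [h2] at h1
  have h3 : ∫ t in (0 : ℝ)..1, ((c * (4 * t * (1 - t)) ^ M : ℝ) : ℂ) * (fun _ : ℝ => (1 : ℂ)) t =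
      ((c * ∫ t in (0 : ℝ)..1, (4 * t * (1 - t)) ^ M : ℝ) : ℂ) := by
    rw [← intervalIntegral.integral_const_mul, ← intervalIntegral.integral_ofReal]
    apply intervalIntegral.integral_congr
    intro t _
    simp
  rw [h3] at h1
  have h4 : c * ∫ t in (0 : ℝ)..1, (4 * t * (1 - t)) ^ M = 1 := by
    exact_mod_cast h1.symm
  have h5 := beta_le M
  have h6 : 0 < 1 / (2 * (M : ℝ) + 2) := by positivity
  obtain ⟨B, hB⟩ : ∃ B : ℝ, B = ∫ t in (0 : ℝ)..1, (4 * t * (1 - t)) ^ M := ⟨_, rfl⟩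
  rw [← hB] at h4 h5
  have hB0 : 0 < B := lt_of_lt_of_le h6 h5
  have h7 : |c| * B = 1 := by
    rw [← abs_of_pos hB0, ← abs_mul, h4, abs_one]
  have h8 : |c| * (1 / (2 * (M : ℝ) + 2)) ≤ 1 :=
    (mul_le_mul_of_nonneg_left h5 (abs_nonneg c)).trans (le_of_eq h7)
  rw [mul_one_div, div_le_one (by positivity)] at h8
  exact h8

end BD36
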