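import Mathlib

/-! BE36, part D': holomorphic extensions in one variable near `0` (architect helper66). -/

open MeasureTheory Set Filter Topology Metric

namespace BD36

/-- `f` has a holomorphic extension to the ball of radius `r` around `0`, bounded by `B`. -/
def HX (r B : ℝ) (f : ℝ → ℂ) : Prop :=
  ∃ g : ℂ → ℂ, DifferentiableOn ℂ g (ball 0 r) ∧ (∀ z ∈ ball (0 : ℂ) r, ‖g z‖ ≤ B) ∧
    ∀ t : ℝ, |t| < r → g t = f t

/-- `z` or its conjugate. -/
noncomputable def cj (e : Bool) (z : ℂ) : ℂ := if e then z else (starRingEnd ℂ) z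

end BD36
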